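import Pool.Agent.H44C.Basic

/-!
# H44C Bands: the energy of a function which is harmonic between the levels `m * 2 ^ k`

Let `r = 2 ^ k`, `g m x = clip (G x / r - m)` for `m : ℤ` (the band number `m`).

1. `x ↦ G x / r - m` satisfies `Cond`: if `0 < G x / r - m < 1` then `m r < G x < (m + 1) r`, so `Hm s t G x` (`hh`), and `D (G / r - m) (Pi.single x 1) = r⁻¹ * D G (Pi.single x 1) = 0` (`D_congr`, `D_smul'`).
   With `κ m = D (G / r - m) (g m) = r⁻¹ * D G (g m) ≥ 0` (`D_clip_nonneg`).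
2. Choose `N : ℕ` with `|G x / r| ≤ N` for all `x` and let `M = Finset.Ico (-N) N` (integers).  Claim: for a real `u` with `- N ≤ u ≤ N`: `∑ m ∈ M, clip (u - m) = u + N`.  General lemma (induction on `J : ℕ`): for `a : ℤ` and `a ≤ u ≤ a + J`:
   `∑ m ∈ Finset.Ico a (a + J), clip (u - m) = u - a`  (easier: first for all `u`: `∑ j ∈ Finset.range J, clip (v - j) = max 0 (min J v)`, by induction on `J`, case distinctions; then substitute `v = u - a`).
   So `∑ m ∈ M, D G (g m) = D G (∑ m ∈ M, g m) = D G (r⁻¹ • G)` (`D_sum`, `D_congr`), `∑ m ∈ M, κ m = r⁻¹ ^ 2 * D G G = 4 ^ (- k) * D G G ≤ 4 ^ (- k)`.  All `κ m ≥ 0`, so `κ m ≤ 4 ^ (- k)` for `m ∈ M` and by `hT.test`: `En l univ (g m) ≤ T k * κ m`, and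
   `∑ m ∈ M, En l univ (g m) ≤ T k * r⁻¹ ^ 2 * D G G`.
3. For `z ∈ S` with the integer `a` from `hS`, `u = G z.1 / r`, `w = G z.2 / r`, both in `[a, a + J]`: `u - w = ∑ m ∈ Ico a (a + J), (g m z.1 - g m z.2)`, so by Cauchy-Schwarz (`sq_sum_le_card_mul_sum_sq`) `(u - w) ^ 2 ≤ J * ∑ m ∈ Ico a (a + J), (g m z.1 - g m z.2) ^ 2 ≤
   J * ∑ m ∈ M, (g m z.1 - g m z.2) ^ 2`: the terms with `m ∉ M` are `0` (for `m ≥ N` both `clip` are `0`, for `m < - N`, i.e. `m + 1 ≤ - N`, both are `1`), so the sum over `Ico a (a + J)` is at most the sum over the union with `M`, which is the sum over `M`.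
   Multiply by `l z` and `r ^ 2`, sum over `z ∈ S` (exchange the sums), `En l S (g m) ≤ En l univ (g m)`.
-/

set_option autoImplicit false
set_option linter.unusedSectionVars false
set_option linter.unusedVariables false

open Finset

namespace Pool.Agent.H44C

variable {V E : Type} [Fintype V] [DecidableEq V] [Fintype E] {s t : E → V} {l : V × V → ℝ} {T : ℤ → ℝ}

private theorem sum_clip_nat (v : ℝ) (J : ℕ) : ∑ j ∈ Finset.range J, clip (v - j) = max 0 (min (J : ℝ) v) := by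
  induction J with
  | zero => simp
  | succ J ih =>
    rw [Finset.sum_range_succ, ih]
    have hJ : (0 : ℝ) ≤ J := Nat.cast_nonneg J
    push_cast
    rcases le_total v J with h | h
    · rw [clip_of_le (by linarith), min_eq_right h, min_eq_right (by linarith), add_zero]
    · rcases le_total v (J + 1) with h' | h'
      · rw [clip_of_mem (by linarith) (by linarith), min_eq_left h, min_eq_right h', max_eq_right hJ, max_eq_right (by linarith)]
        ring
      · rw [clip_of_ge (by linarith), min_eq_left h, min_eq_left h', max_eq_right hJ, max_eq_right (by linarith)]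

private theorem sum_Ico_int (a : ℤ) (J : ℕ) (f : ℤ → ℝ) : ∑ m ∈ Finset.Ico a (a + J), f m = ∑ j ∈ Finset.range J, f (a + j) := by
  refine (Finset.sum_nbij' (fun j : ℕ => a + j) (fun m : ℤ => (m - a).toNat) ?_ ?_ ?_ ?_ ?_).symm
  · intro j hj
    rw [Finset.mem_range] at hj
    rw [Finset.mem_Ico]
    constructor <;> omega
  · intro m hm
    rw [Finset.mem_Ico] at hm
    rw [Finset.mem_range]
    omega
  · intro j hj
    omega
  · intro m hm
    rw [Finset.mem_Ico] at hm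
    omega
  · intro j hj
    rfl

private theorem sum_clip_int (a : ℤ) (J : ℕ) {u : ℝ} (h0 : a ≤ u) (h1 : u ≤ a + J) : ∑ m ∈ Finset.Ico a (a + J), clip (u - m) = u - a := by
  rw [sum_Ico_int]
  have h := sum_clip_nat (u - a) J
  rw [min_eq_right (by linarith), max_eq_right (by linarith)] at h
  rw [← h]
  refine Finset.sum_congr rfl fun j _ => ?_
  push_cast
  congr 1
  ring

theorem band_sum (hT : Tst s t l T) {G : V → ℝ} {k : ℤ}
    (hh : ∀ x, ∀ m : ℤ, m * (2 : ℝ) ^ k < G x → G x < (m + 1) * (2 : ℝ) ^ k → Hm s t G x) (hD : D s t G G ≤ 1) {S : Finset (V × V)} {J : ℕ}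
    (hS : ∀ z ∈ S, ∃ a : ℤ, (a * (2 : ℝ) ^ k ≤ G z.1 ∧ G z.1 ≤ (a + J) * (2 : ℝ) ^ k) ∧ (a * (2 : ℝ) ^ k ≤ G z.2 ∧ G z.2 ≤ (a + J) * (2 : ℝ) ^ k)) :
    En l S G ≤ J * T k * D s t G G := by
  set r : ℝ := (2 : ℝ) ^ k with hr
  have hr0 : 0 < r := zpow_pos two_pos k
  have hrn : r ≠ 0 := hr0.ne'
  have h4 : (4 : ℝ) ^ (-k) = r⁻¹ * r⁻¹ := by
    rw [hr, show (4 : ℝ) = 2 * 2 by norm_num, mul_zpow, zpow_neg]
  obtain ⟨C, hC⟩ := Finite.exists_le (fun x => |G x / r|)
  obtain ⟨N, hN⟩ := exists_nat_ge C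
  have hGN : ∀ x, -(N : ℝ) ≤ G x / r ∧ G x / r ≤ N := fun x => abs_le.mp ((hC x).trans hN)
  -- the bands
  set Gm : ℤ → V → ℝ := fun m x => G x / r - m with hGm
  have hDm : ∀ (m : ℤ) (ψ : V → ℝ), D s t (Gm m) ψ = r⁻¹ * D s t G ψ := by
    intro m ψ
    rw [← D_smul']
    refine D_congr (fun x y => ?_) (fun x y => rfl)
    simp only [hGm, Pi.smul_apply, smul_eq_mul]
    field_simp
    ring
  have hcond : ∀ m : ℤ, Cond s t (Gm m) := by
    intro m x hx0 hx1
    simp only [hGm] at hx0 hx1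
    have e1 : m * r < G x := by
      have : (m : ℝ) < G x / r := by linarith
      exact (lt_div_iff₀ hr0).mp this
    have e2 : G x < (m + 1) * r := by
      have : G x / r < (m : ℝ) + 1 := by linarith
      exact (div_lt_iff₀ hr0).mp this
    have h := hh x m e1 e2
    simp only [Hm] at h ⊢
    rw [hDm, h, mul_zero]
  set κ : ℤ → ℝ := fun m => D s t (Gm m) (cl (Gm m)) with hκ
  have hκ0 : ∀ m, 0 ≤ κ m := fun m => D_clip_nonneg _
  set M : Finset ℤ := Finset.Ico (-(N : ℤ)) (-(N : ℤ) + ((2 * N : ℕ) : ℤ)) with hM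
  have hclM : ∀ x, ∑ m ∈ M, cl (Gm m) x = G x / r + N := by
    intro x
    have h1 := sum_clip_int (-(N : ℤ)) (2 * N) (u := G x / r) (by push_cast; exact (hGN x).1)
      (by push_cast; linarith [(hGN x).2])
    simp only [cl, hGm]
    rw [hM, h1]
    push_cast
    ring
  have hsum : ∑ m ∈ M, κ m = r⁻¹ * (r⁻¹ * D s t G G) := by
    simp only [hκ, hDm]
    rw [← Finset.mul_sum, ← D_sum]
    congr 1
    rw [← D_smul]
    have hc : D s t G (fun x => ∑ m ∈ M, cl (Gm m) x) = D s t G (r⁻¹ • G) :=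
      D_congr (V := V) (E := E) (s := s) (t := t) (fun x y => rfl) (fun x y => by
        show (∑ m ∈ M, cl (Gm m) x) - (∑ m ∈ M, cl (Gm m) y) = r⁻¹ * G x - r⁻¹ * G y
        rw [hclM, hclM]
        field_simp
        ring)
    exact hc
  have hκle : ∀ m ∈ M, κ m ≤ (4 : ℝ) ^ (-k) := by
    intro m hm
    have h1 : κ m ≤ ∑ m ∈ M, κ m := Finset.single_le_sum (fun i _ => hκ0 i) hm
    have hi : 0 ≤ r⁻¹ * r⁻¹ := mul_self_nonneg _
    have h2 : r⁻¹ * (r⁻¹ * D s t G G) ≤ r⁻¹ * r⁻¹ := by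
      calc r⁻¹ * (r⁻¹ * D s t G G) = (r⁻¹ * r⁻¹) * D s t G G := by ring
        _ ≤ (r⁻¹ * r⁻¹) * 1 := mul_le_mul_of_nonneg_left hD hi
        _ = _ := mul_one _
    rw [h4]
    exact h1.trans (hsum.le.trans h2)
  have hEn : ∀ m ∈ M, En l univ (cl (Gm m)) ≤ T k * κ m := fun m hm => hT.test k (Gm m) (hcond m) (hκle m hm)
  -- the pairs
  have hpair : ∀ z ∈ S, (G z.1 - G z.2) ^ 2 ≤ J * r ^ 2 * ∑ m ∈ M, (cl (Gm m) z.1 - cl (Gm m) z.2) ^ 2 := by
    intro z hz
    obtain ⟨a, ⟨ha1, ha2⟩, ⟨hb1, hb2⟩⟩ := hS z hz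
    have hu1 : (a : ℝ) ≤ G z.1 / r := (le_div_iff₀ hr0).mpr ha1
    have hu2 : G z.1 / r ≤ a + J := (div_le_iff₀ hr0).mpr ha2
    have hw1 : (a : ℝ) ≤ G z.2 / r := (le_div_iff₀ hr0).mpr hb1
    have hw2 : G z.2 / r ≤ a + J := (div_le_iff₀ hr0).mpr hb2
    have e1 := sum_clip_int a J hu1 hu2
    have e2 := sum_clip_int a J hw1 hw2
    have e3 : G z.1 / r - G z.2 / r = ∑ m ∈ Finset.Ico a (a + J), (cl (Gm m) z.1 - cl (Gm m) z.2) := by
      rw [Finset.sum_sub_distrib]
      simp only [cl, hGm]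
      rw [e1, e2]
      ring
    have e4 : (G z.1 / r - G z.2 / r) ^ 2 ≤ J * ∑ m ∈ Finset.Ico a (a + J), (cl (Gm m) z.1 - cl (Gm m) z.2) ^ 2 := by
      rw [e3]
      have := sq_sum_le_card_mul_sum_sq (s := Finset.Ico a (a + J)) (f := fun m => cl (Gm m) z.1 - cl (Gm m) z.2)
      simpa using this
    have e5 : ∑ m ∈ Finset.Ico a (a + J), (cl (Gm m) z.1 - cl (Gm m) z.2) ^ 2 ≤ ∑ m ∈ M, (cl (Gm m) z.1 - cl (Gm m) z.2) ^ 2 := by
      rw [← Finset.sum_filter_of_ne (p := fun m => m ∈ M)]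
      · refine Finset.sum_le_sum_of_subset_of_nonneg ?_ fun i _ _ => sq_nonneg _
        intro m hm
        exact (Finset.mem_filter.mp hm).2
      · intro m _ hne
        by_contra hcon
        apply hne
        rw [hM, Finset.mem_Ico, not_and_or, not_le, not_lt] at hcon
        rcases hcon with h | h
        · have h' : (m : ℝ) + 1 ≤ -(N : ℝ) := by
            have : m + 1 ≤ -(N : ℤ) := h
            exact_mod_cast this
          have c1 : cl (Gm m) z.1 = 1 := clip_of_ge (by simp only [hGm]; linarith [(hGN z.1).1])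
          have c2 : cl (Gm m) z.2 = 1 := clip_of_ge (by simp only [hGm]; linarith [(hGN z.2).1])
          rw [c1, c2]
          norm_num
        · have h' : (N : ℝ) ≤ (m : ℝ) := by
            have : (N : ℤ) ≤ m := by push_cast at h; linarith
            exact_mod_cast this
          have c1 : cl (Gm m) z.1 = 0 := clip_of_le (by simp only [hGm]; linarith [(hGN z.1).2])
          have c2 : cl (Gm m) z.2 = 0 := clip_of_le (by simp only [hGm]; linarith [(hGN z.2).2])
          rw [c1, c2]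
          norm_num
    have e6 : (G z.1 - G z.2) ^ 2 = r ^ 2 * (G z.1 / r - G z.2 / r) ^ 2 := by
      field_simp
    have hJ0 : (0 : ℝ) ≤ J := Nat.cast_nonneg J
    rw [e6]
    calc r ^ 2 * (G z.1 / r - G z.2 / r) ^ 2 ≤ r ^ 2 * (J * ∑ m ∈ M, (cl (Gm m) z.1 - cl (Gm m) z.2) ^ 2) :=
          mul_le_mul_of_nonneg_left (e4.trans (mul_le_mul_of_nonneg_left e5 hJ0)) (sq_nonneg _)
      _ = _ := by ring
  have hJ0 : (0 : ℝ) ≤ J := Nat.cast_nonneg J
  calc En l S G = ∑ z ∈ S, l z * (G z.1 - G z.2) ^ 2 := rfl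
    _ ≤ ∑ z ∈ S, l z * (J * r ^ 2 * ∑ m ∈ M, (cl (Gm m) z.1 - cl (Gm m) z.2) ^ 2) :=
        Finset.sum_le_sum fun z hz => mul_le_mul_of_nonneg_left (hpair z hz) (hT.pos z)
    _ = J * r ^ 2 * ∑ m ∈ M, En l S (cl (Gm m)) := by
        simp only [En]
        rw [Finset.sum_comm, Finset.mul_sum]
        refine Finset.sum_congr rfl fun z _ => ?_
        rw [← Finset.mul_sum]
        ring
    _ ≤ J * r ^ 2 * ∑ m ∈ M, T k * κ m := by
        refine mul_le_mul_of_nonneg_left (Finset.sum_le_sum fun m hm => ?_) (mul_nonneg hJ0 (sq_nonneg _))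
        exact (En_mono hT.pos (Finset.subset_univ S) _).trans (hEn m hm)
    _ = J * r ^ 2 * (T k * (r⁻¹ * (r⁻¹ * D s t G G))) := by rw [← Finset.mul_sum, hsum]
    _ = J * T k * D s t G G := by
        field_simp

end Pool.Agent.H44C
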