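import Pool.Agent.H44C.Defs

/-!
# H44C Basic: rules for `D` and `En`
-/

set_option autoImplicit false
set_option linter.unusedSectionVars false
set_option linter.unusedVariables false

open Finset

namespace Pool.Agent.H44C

variable {V E : Type} [Fintype V] [DecidableEq V] [Fintype E] {s t : E → V} {l : V × V → ℝ}

theorem D_comm (φ ψ : V → ℝ) : D s t φ ψ = D s t ψ φ := Finset.sum_congr rfl fun e _ => mul_comm _ _

theorem D_add (φ ψ χ : V → ℝ) : D s t φ (ψ + χ) = D s t φ ψ + D s t φ χ := by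
  simp only [D, Pi.add_apply, ← Finset.sum_add_distrib]
  exact Finset.sum_congr rfl fun e _ => by ring

theorem D_sub (φ ψ χ : V → ℝ) : D s t φ (ψ - χ) = D s t φ ψ - D s t φ χ := by
  simp only [D, Pi.sub_apply, ← Finset.sum_sub_distrib]
  exact Finset.sum_congr rfl fun e _ => by ring

theorem D_smul (φ ψ : V → ℝ) (c : ℝ) : D s t φ (c • ψ) = c * D s t φ ψ := by
  simp only [D, Pi.smul_apply, smul_eq_mul, Finset.mul_sum]
  exact Finset.sum_congr rfl fun e _ => by ring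

theorem D_add' (φ ψ χ : V → ℝ) : D s t (φ + ψ) χ = D s t φ χ + D s t ψ χ := by
  rw [D_comm, D_add, D_comm χ, D_comm χ]

theorem D_sub' (φ ψ χ : V → ℝ) : D s t (φ - ψ) χ = D s t φ χ - D s t ψ χ := by
  rw [D_comm, D_sub, D_comm χ, D_comm χ]

theorem D_smul' (φ ψ : V → ℝ) (c : ℝ) : D s t (c • φ) ψ = c * D s t φ ψ := by
  rw [D_comm, D_smul, D_comm ψ]

theorem D_nonneg (φ : V → ℝ) : 0 ≤ D s t φ φ := Finset.sum_nonneg fun e _ => mul_self_nonneg _

/-- the form only depends on the differences along the edges -/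
theorem D_congr {φ φ' ψ ψ' : V → ℝ} (h : ∀ x y, φ x - φ y = φ' x - φ' y) (h' : ∀ x y, ψ x - ψ y = ψ' x - ψ' y) :
    D s t φ ψ = D s t φ' ψ' := Finset.sum_congr rfl fun e _ => by rw [h, h']

theorem D_sum {ι : Type} (I : Finset ι) (φ : V → ℝ) (ψ : ι → V → ℝ) : D s t φ (fun x => ∑ i ∈ I, ψ i x) = ∑ i ∈ I, D s t φ (ψ i) := by
  simp only [D]
  rw [Finset.sum_comm]
  refine Finset.sum_congr rfl fun e _ => ?_
  rw [← Finset.sum_sub_distrib, Finset.mul_sum]

theorem En_nonneg (hl : ∀ z, 0 ≤ l z) (S : Finset (V × V)) (φ : V → ℝ) : 0 ≤ En l S φ :=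
  Finset.sum_nonneg fun z _ => mul_nonneg (hl z) (sq_nonneg _)

theorem En_mono (hl : ∀ z, 0 ≤ l z) {S S' : Finset (V × V)} (h : S ⊆ S') (φ : V → ℝ) : En l S φ ≤ En l S' φ :=
  Finset.sum_le_sum_of_subset_of_nonneg h fun z _ _ => mul_nonneg (hl z) (sq_nonneg _)

theorem En_union_le (hl : ∀ z, 0 ≤ l z) {S S₁ S₂ : Finset (V × V)} (h : S ⊆ S₁ ∪ S₂) (φ : V → ℝ) : En l S φ ≤ En l S₁ φ + En l S₂ φ := by
  refine (En_mono hl h φ).trans ?_
  have h1 := Finset.sum_union_inter (s₁ := S₁) (s₂ := S₂) (f := fun z => l z * (φ z.1 - φ z.2) ^ 2)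
  have h2 : 0 ≤ ∑ z ∈ S₁ ∩ S₂, l z * (φ z.1 - φ z.2) ^ 2 := Finset.sum_nonneg fun z _ => mul_nonneg (hl z) (sq_nonneg _)
  simp only [En]
  linarith

theorem En_le_of (hl : ∀ z, 0 ≤ l z) {S : Finset (V × V)} {φ ψ : V → ℝ} {c : ℝ}
    (h : ∀ z ∈ S, (φ z.1 - φ z.2) ^ 2 ≤ c * (ψ z.1 - ψ z.2) ^ 2) : En l S φ ≤ c * En l S ψ := by
  simp only [En, Finset.mul_sum]
  refine Finset.sum_le_sum fun z hz => ?_
  have h1 := mul_le_mul_of_nonneg_left (h z hz) (hl z)
  linarith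

theorem En_smul (S : Finset (V × V)) (φ : V → ℝ) (c : ℝ) : En l S (c • φ) = c ^ 2 * En l S φ := by
  simp only [En, Pi.smul_apply, smul_eq_mul, Finset.mul_sum]
  exact Finset.sum_congr rfl fun e _ => by ring

/-- the triangle inequality, with a small part of a third function -/
theorem En_minkowski (hl : ∀ z, 0 ≤ l z) {S : Finset (V × V)} {f g h : V × V → ℝ} (hf : ∀ z ∈ S, |h z| ≤ |f z| + |g z|) :
    √(∑ z ∈ S, l z * h z ^ 2) ≤ √(∑ z ∈ S, l z * f z ^ 2) + √(∑ z ∈ S, l z * g z ^ 2) := by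
  set A := ∑ z ∈ S, l z * f z ^ 2 with hA
  set B := ∑ z ∈ S, l z * g z ^ 2 with hB
  have hA0 : 0 ≤ A := Finset.sum_nonneg fun z _ => mul_nonneg (hl z) (sq_nonneg _)
  have hB0 : 0 ≤ B := Finset.sum_nonneg fun z _ => mul_nonneg (hl z) (sq_nonneg _)
  have hcs : ∑ z ∈ S, l z * (|f z| * |g z|) ≤ √A * √B := by
    have h1 := Finset.sum_mul_sq_le_sq_mul_sq S (fun z => √(l z) * |f z|) (fun z => √(l z) * |g z|)
    have e1 : ∀ z, √(l z) * |f z| * (√(l z) * |g z|) = l z * (|f z| * |g z|) := fun z => by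
      have := Real.mul_self_sqrt (hl z)
      calc √(l z) * |f z| * (√(l z) * |g z|) = (√(l z) * √(l z)) * (|f z| * |g z|) := by ring
        _ = _ := by rw [this]
    have e2 : ∀ (k : V × V → ℝ) z, (√(l z) * |k z|) ^ 2 = l z * k z ^ 2 := fun k z => by
      rw [mul_pow, Real.sq_sqrt (hl z), sq_abs]
    simp only [e1, e2] at h1
    rw [← Real.sqrt_mul hA0]
    refine Real.le_sqrt_of_sq_le ?_
    exact h1
  rw [← Real.sqrt_sq (add_nonneg (Real.sqrt_nonneg A) (Real.sqrt_nonneg B))]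
  refine Real.sqrt_le_sqrt ?_
  have h2 : ∑ z ∈ S, l z * h z ^ 2 ≤ A + 2 * ∑ z ∈ S, l z * (|f z| * |g z|) + B := by
    rw [hA, hB, Finset.mul_sum, ← Finset.sum_add_distrib, ← Finset.sum_add_distrib]
    refine Finset.sum_le_sum fun z hz => ?_
    have h3 : h z ^ 2 ≤ (|f z| + |g z|) ^ 2 := by
      rw [← sq_abs (h z)]
      exact pow_le_pow_left₀ (abs_nonneg _) (hf z hz) 2
    have h4 := mul_le_mul_of_nonneg_left h3 (hl z)
    rw [add_sq, sq_abs, sq_abs] at h4
    linarith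
  have h5 : (√A + √B) ^ 2 = A + 2 * (√A * √B) + B := by
    rw [add_sq, Real.sq_sqrt hA0, Real.sq_sqrt hB0]
    ring
  rw [h5]
  linarith

/-- the triangle inequality for the energies -/
theorem En_triangle (hl : ∀ z, 0 ≤ l z) {S : Finset (V × V)} {φ ψ χ : V → ℝ}
    (h : ∀ z ∈ S, |φ z.1 - φ z.2| ≤ |ψ z.1 - ψ z.2| + |χ z.1 - χ z.2|) : √(En l S φ) ≤ √(En l S ψ) + √(En l S χ) :=
  En_minkowski (f := fun z => ψ z.1 - ψ z.2) (g := fun z => χ z.1 - χ z.2) (h := fun z => φ z.1 - φ z.2) hl h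

theorem mem_bnd {F : V → ℝ} {p q : ℤ} {z : V × V} :
    z ∈ bnd F p q ↔ (2 : ℝ) ^ p < |F z.1 - F z.2| ∧ |F z.1 - F z.2| ≤ (2 : ℝ) ^ q := by
  simp [bnd]

theorem bnd_mono {F : V → ℝ} {p q p' q' : ℤ} (hp : p' ≤ p) (hq : q ≤ q') : bnd F p q ⊆ bnd F p' q' := by
  intro z hz
  rw [mem_bnd] at hz ⊢
  exact ⟨(zpow_le_zpow_right₀ one_le_two hp).trans_lt hz.1, hz.2.trans (zpow_le_zpow_right₀ one_le_two hq)⟩

theorem bnd_split (F : V → ℝ) (p m q : ℤ) : bnd F p q ⊆ bnd F p m ∪ bnd F m q := by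
  intro z hz
  rw [Finset.mem_union, mem_bnd, mem_bnd]
  rw [mem_bnd] at hz
  rcases le_or_gt (|F z.1 - F z.2|) ((2 : ℝ) ^ m) with h | h
  · exact Or.inl ⟨hz.1, h⟩
  · exact Or.inr ⟨h, hz.2⟩

theorem bnd_empty {F : V → ℝ} {p q : ℤ} (h : q ≤ p) : bnd F p q = ∅ := by
  rw [Finset.eq_empty_iff_forall_notMem]
  intro z hz
  rw [mem_bnd] at hz
  have := zpow_le_zpow_right₀ (one_le_two (α := ℝ)) h
  linarith [hz.1, hz.2]

theorem clip_nonneg (x : ℝ) : 0 ≤ clip x := le_max_left _ _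

theorem clip_le_one (x : ℝ) : clip x ≤ 1 := max_le zero_le_one (min_le_left _ _)

theorem clip_mono : Monotone clip := fun _ _ h => max_le_max_left _ (min_le_min_left _ h)

theorem clip_of_mem {x : ℝ} (h0 : 0 ≤ x) (h1 : x ≤ 1) : clip x = x := by
  rw [clip, min_eq_right h1, max_eq_right h0]

theorem clip_of_le {x : ℝ} (h : x ≤ 0) : clip x = 0 := by
  rw [clip, max_eq_left]
  exact (min_le_right _ _).trans h

theorem clip_of_ge {x : ℝ} (h : 1 ≤ x) : clip x = 1 := by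
  rw [clip, min_eq_left h, max_eq_right zero_le_one]

/-- the truncation is a contraction, with the same direction -/
theorem clip_sub_sq_le (x y : ℝ) : (clip x - clip y) ^ 2 ≤ (x - y) * (clip x - clip y) := by
  rcases le_total x y with h | h
  · have h1 := clip_mono h
    have h2 : clip y - clip x ≤ y - x := by
      simp only [clip]
      rcases le_total 1 x with a | a <;> rcases le_total 1 y with b | b <;> rcases le_total 0 x with c | c <;> rcases le_total 0 y with d | d <;>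
        simp [a, b, c, d] <;> linarith
    nlinarith
  · have h1 := clip_mono h
    have h2 : clip x - clip y ≤ x - y := by
      simp only [clip]
      rcases le_total 1 x with a | a <;> rcases le_total 1 y with b | b <;> rcases le_total 0 x with c | c <;> rcases le_total 0 y with d | d <;>
        simp [a, b, c, d] <;> linarith
    nlinarith

theorem D_clip_nonneg (G : V → ℝ) : 0 ≤ D s t G (cl G) :=
  Finset.sum_nonneg fun e _ => (sq_nonneg _).trans (clip_sub_sq_le (G (s e)) (G (t e)))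

theorem D_cl_le (G : V → ℝ) : D s t (cl G) (cl G) ≤ D s t G (cl G) := by
  refine Finset.sum_le_sum fun e _ => ?_
  have := clip_sub_sq_le (G (s e)) (G (t e))
  rw [sq] at this
  exact this

end Pool.Agent.H44C
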