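import Pool.Agent.H44C.Single

/-!
# H44C Block: a block of scales

`G`, `G'` the discretisations of `F` at the scales `2 ^ (p - 3)` and `2 ^ q`, `B = G - G'`, `S = bnd F p q`, `A = En l S F`.  For `z ∈ S`: `|ΔF - ΔG| ≤ 2 ^ (p - 2) < |ΔF| / 4` (`KK_diff`), `ΔG = ΔG' + ΔB`; `|ΔB| ≤ |ΔF - ΔG| + |ΔF - ΔG'| ≤ 2 ^ (p - 2) + 2 ^ (q + 1) ≤ 2 ^ (q + 2)`;
so either `z ∈ bnd B (p - 2) (q + 2)` or `|ΔB| ≤ 2 ^ (p - 2) ≤ |ΔF| / 4`.  In any case `|ΔF| ≤ |ΔG'| + |ΔB|·1_{z ∈ bnd B (p - 2) (q + 2)} + |ΔF| / 2`.  So `√A ≤ √(En l S G') + √(En l (bnd B ..) B) + √A / 2` (`En_minkowski` twice; for the indicator function the sum over `S` is at most the sum over `bnd B ..`),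
`√A ≤ 2 (√a + √b)`, `A ≤ 4 (√a + √b) ^ 2 ≤ 8 (a + b)`, where `a = En l S G' ≤ 2 * T q * D G' G'` by `low_pairs` and `b = En l (bnd B (p - 2) (q + 2)) B`.
-/

set_option autoImplicit false
set_option linter.unusedSectionVars false
set_option linter.unusedVariables false

open Finset

namespace Pool.Agent.H44C

variable {V E : Type} [Fintype V] [DecidableEq V] [Fintype E] {s t : E → V} {l : V × V → ℝ} {T : ℤ → ℝ}

theorem block (hT : Tst s t l T) {F G G' : V → ℝ} {p q : ℤ} (hpq : p ≤ q) (hF : D s t F F ≤ 1) (h : Dis s t F (p - 3) G) (h' : Dis s t F q G') :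
    En l (bnd F p q) F ≤ 8 * (2 * T q * D s t G' G' + En l (bnd (G - G') (p - 2) (q + 2)) (G - G')) := by
  classical
  have hl := hT.pos
  set S := bnd F p q with hSdef
  set U := bnd (G - G') (p - 2) (q + 2) with hUdef
  set kf : V × V → ℝ := fun z => if z ∈ U then (G - G') z.1 - (G - G') z.2 else 0 with hkf
  have e1 : (2 : ℝ) ^ p = 4 * (2 : ℝ) ^ (p - 2) := by
    have : (2 : ℝ) ^ p = (2 : ℝ) ^ (2 + (p - 2)) := by congr 1; ring
    rw [this, zpow_add₀ two_ne_zero]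
    norm_num
  have e2 : (2 : ℝ) ^ (q + 2) = 2 * (2 : ℝ) ^ (q + 1) := by
    have : (2 : ℝ) ^ (q + 2) = (2 : ℝ) ^ (1 + (q + 1)) := by congr 1; ring
    rw [this, zpow_add₀ two_ne_zero]
    norm_num
  have e3 : (2 : ℝ) ^ (p - 2) ≤ (2 : ℝ) ^ (q + 1) := zpow_le_zpow_right₀ one_le_two (by omega)
  have e4 : p - 3 + 1 = p - 2 := by ring
  -- the pointwise inequality
  have key : ∀ z ∈ S, |F z.1 - F z.2| ≤ |G' z.1 - G' z.2| + (|kf z| + |F z.1 - F z.2| / 2) := by
    intro z hz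
    have hz' := mem_bnd.1 hz
    have h1 := KK_diff h.mem z.1 z.2
    rw [e4] at h1
    have h2 := KK_diff h'.mem z.1 z.2
    have h3 : (G - G') z.1 - (G - G') z.2 = (G z.1 - G z.2) - (G' z.1 - G' z.2) := by
      simp only [Pi.sub_apply]
      ring
    have h4 : (2 : ℝ) ^ (p - 2) ≤ |F z.1 - F z.2| / 4 := by
      have := hz'.1
      rw [e1] at this
      linarith
    have h5 : |F z.1 - F z.2| ≤ |(F z.1 - F z.2) - (G z.1 - G z.2)| + |G' z.1 - G' z.2| + |(G - G') z.1 - (G - G') z.2| := by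
      rw [h3]
      calc |F z.1 - F z.2| = |((F z.1 - F z.2) - (G z.1 - G z.2)) + (G' z.1 - G' z.2) + ((G z.1 - G z.2) - (G' z.1 - G' z.2))| := by
            congr 1; ring
        _ ≤ |((F z.1 - F z.2) - (G z.1 - G z.2)) + (G' z.1 - G' z.2)| + |(G z.1 - G z.2) - (G' z.1 - G' z.2)| := abs_add_le _ _
        _ ≤ _ := by
            have := abs_add_le ((F z.1 - F z.2) - (G z.1 - G z.2)) (G' z.1 - G' z.2)
            linarith
    by_cases hU : z ∈ U
    · have h6 : kf z = (G - G') z.1 - (G - G') z.2 := by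
        simp only [hkf, if_pos hU]
      rw [h6]
      have := abs_nonneg (F z.1 - F z.2)
      linarith
    · have h6 : kf z = 0 := by
        simp only [hkf, if_neg hU]
      rw [h6, abs_zero]
      have h7 : |(G - G') z.1 - (G - G') z.2| ≤ (2 : ℝ) ^ (q + 2) := by
        rw [h3, e2]
        calc |(G z.1 - G z.2) - (G' z.1 - G' z.2)|
            = |((F z.1 - F z.2) - (G' z.1 - G' z.2)) - ((F z.1 - F z.2) - (G z.1 - G z.2))| := by
              congr 1; ring
          _ ≤ |(F z.1 - F z.2) - (G' z.1 - G' z.2)| + |(F z.1 - F z.2) - (G z.1 - G z.2)| := abs_sub _ _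
          _ ≤ _ := by linarith
      have h8 : |(G - G') z.1 - (G - G') z.2| ≤ (2 : ℝ) ^ (p - 2) := by
        by_contra hcon
        exact hU (mem_bnd.2 ⟨not_le.1 hcon, h7⟩)
      linarith
  -- Minkowski
  have m1 : √(∑ z ∈ S, l z * (F z.1 - F z.2) ^ 2) ≤
      √(∑ z ∈ S, l z * (G' z.1 - G' z.2) ^ 2) + √(∑ z ∈ S, l z * (|kf z| + |F z.1 - F z.2| / 2) ^ 2) :=
    En_minkowski (f := fun z => G' z.1 - G' z.2) (g := fun z => |kf z| + |F z.1 - F z.2| / 2) (h := fun z => F z.1 - F z.2) hl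
      (fun z hz => by
        have h1 : |(|kf z| + |F z.1 - F z.2| / 2)| = |kf z| + |F z.1 - F z.2| / 2 := abs_of_nonneg (by positivity)
        rw [h1]
        exact key z hz)
  have m2 : √(∑ z ∈ S, l z * (|kf z| + |F z.1 - F z.2| / 2) ^ 2) ≤
      √(∑ z ∈ S, l z * kf z ^ 2) + √(∑ z ∈ S, l z * ((F z.1 - F z.2) / 2) ^ 2) :=
    En_minkowski (f := kf) (g := fun z => (F z.1 - F z.2) / 2) (h := fun z => |kf z| + |F z.1 - F z.2| / 2) hl
      (fun z hz => by
        have h1 : |(|kf z| + |F z.1 - F z.2| / 2)| = |kf z| + |F z.1 - F z.2| / 2 := abs_of_nonneg (by positivity)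
        have h2 : |(F z.1 - F z.2) / 2| = |F z.1 - F z.2| / 2 := by
          rw [abs_div, abs_two]
        rw [h1, h2])
  have hA : ∑ z ∈ S, l z * (F z.1 - F z.2) ^ 2 = En l S F := rfl
  have ha : ∑ z ∈ S, l z * (G' z.1 - G' z.2) ^ 2 = En l S G' := rfl
  have hA4 : √(∑ z ∈ S, l z * ((F z.1 - F z.2) / 2) ^ 2) = √(En l S F) / 2 := by
    have h1 : ∑ z ∈ S, l z * ((F z.1 - F z.2) / 2) ^ 2 = En l S F / 2 ^ 2 := by
      rw [← hA, Finset.sum_div]
      exact Finset.sum_congr rfl fun z _ => by ring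
    rw [h1, Real.sqrt_div (En_nonneg hl S F), Real.sqrt_sq (by norm_num)]
  have hb : ∑ z ∈ S, l z * kf z ^ 2 ≤ En l U (G - G') := by
    calc ∑ z ∈ S, l z * kf z ^ 2 ≤ ∑ z, l z * kf z ^ 2 :=
          Finset.sum_le_sum_of_subset_of_nonneg (Finset.subset_univ _) fun z _ _ => mul_nonneg (hl z) (sq_nonneg _)
      _ = ∑ z ∈ U, l z * kf z ^ 2 := by
          symm
          refine Finset.sum_subset (Finset.subset_univ _) fun z _ hz => ?_
          simp only [hkf, if_neg hz]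
          ring
      _ = En l U (G - G') := by
          refine Finset.sum_congr rfl fun z hz => ?_
          simp only [hkf, if_pos hz]
  have hb' : √(∑ z ∈ S, l z * kf z ^ 2) ≤ √(En l U (G - G')) := Real.sqrt_le_sqrt hb
  rw [hA, ha] at m1
  rw [hA4] at m2
  have hroot : √(En l S F) ≤ 2 * (√(En l S G') + √(En l U (G - G'))) := by linarith
  have hA0 := En_nonneg hl S F
  have ha0 := En_nonneg hl S G'
  have hb0 := En_nonneg hl U (G - G')
  have h8 : En l S F ≤ 8 * (En l S G' + En l U (G - G')) := by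
    have s1 := Real.sq_sqrt hA0
    have s2 := Real.sq_sqrt ha0
    have s3 := Real.sq_sqrt hb0
    have s4 := Real.sqrt_nonneg (En l S F)
    have s5 : √(En l S F) ^ 2 ≤ (2 * (√(En l S G') + √(En l U (G - G')))) ^ 2 := pow_le_pow_left₀ s4 hroot 2
    have s6 := sq_nonneg (√(En l S G') - √(En l U (G - G')))
    nlinarith
  have h9 : En l S G' ≤ 2 * T q * D s t G' G' := low_pairs hT h' hF fun z hz => (mem_bnd.1 hz).2
  linarith

end Pool.Agent.H44C
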