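import Pool.Agent.H44C.StepB
import Pool.Agent.H44C.Block

/-!
# H44C Blocks: the sum over the blocks `[p j, p (j + 1))`, `p j = 4 * (2 ^ j - 1)`

Choose for every `k` a discretisation `G k` of `F` (`exists_dis`), `d k = D (G k) (G k)`.  `d` is antitone and `0 ≤ d k ≤ D F F ≤ 1` (`dis_split2`, `dis_split`, `D_nonneg`).  `B j = G (p j - 3) - G (p (j + 1))`; `D (B j) (B j) ≤ d (p j - 3) - d (p (j + 1))` (`dis_split2`).

* one block (`block` with `p = p j`, `q = p (j + 1)`): `En l (bnd F (p j) (p (j + 1))) F ≤ 8 * (2 * T (p (j + 1)) * d (p (j + 1)) + En l (bnd (B j) (p j - 2) (p (j + 1) + 2)) (B j))`; the length `p (j + 1) + 2 - (p j - 2) = 4 * 2 ^ j + 4 ≤ 2 ^ (j + 3) + 3`, so by `pp_all` with `r = j + 3`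
  (`D (B j) (B j) ≤ d (p j - 3) ≤ 1`) the last energy is at most `144 (j + 4) ^ 2 * T (p j - 2 - (j + 5) ^ 2) * D (B j) (B j) ≤ M * D (B j) (B j)`.
* `∑ j < J, D (B j) (B j) ≤ 2 D F F`: let `e 0 = D F F`, `e (j + 1) = d (p j)`; then `d (p j - 3) ≤ e j` (for `j ≥ 1`: `p j - 3 ≥ p (j - 1)`) and `D (B j) (B j) ≤ e j - e (j + 2)`; `∑ j < J, (e j - e (j + 2)) = e 0 + e 1 - e J - e (J + 1) ≤ 2 e 0`.
* `bnd F 0 (p J)` is covered by the blocks `j < J` (induction on `J`: `bnd_split`, `En_union_le`; `bnd_empty` for `J = 0`).  Sum: `∑ 16 T (p (j + 1)) * D F F + 8 M * 2 D F F`.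
-/

set_option autoImplicit false
set_option linter.unusedSectionVars false
set_option linter.unusedVariables false

open Finset

namespace Pool.Agent.H44C

variable {V E : Type} [Fintype V] [DecidableEq V] [Fintype E] {s t : E → V} {l : V × V → ℝ} {T : ℤ → ℝ}

theorem blocks_sum (hT : Tst s t l T) {M M' : ℝ} (hM0 : 0 ≤ M)
    (hM : ∀ j : ℕ, 144 * ((j : ℝ) + 4) ^ 2 * T (4 * ((2 : ℤ) ^ j - 1) - 2 - ((j : ℤ) + 5) ^ 2) ≤ M)
    (hM' : ∀ J : ℕ, ∑ j ∈ range J, T (4 * ((2 : ℤ) ^ (j + 1) - 1)) ≤ M') {F : V → ℝ} (hF : D s t F F ≤ 1) (J : ℕ) :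
    En l (bnd F 0 (4 * ((2 : ℤ) ^ J - 1))) F ≤ (16 * M' + 16 * M) * D s t F F := by
  classical
  choose G hG using fun k : ℤ => exists_dis s t F k
  have hF0 : 0 ≤ D s t F F := D_nonneg F
  obtain ⟨d, hd⟩ : ∃ d : ℤ → ℝ, ∀ k, d k = D s t (G k) (G k) := ⟨fun k => D s t (G k) (G k), fun k => rfl⟩
  have hd0 : ∀ k, 0 ≤ d k := fun k => by rw [hd]; exact D_nonneg _
  have hdF : ∀ k, d k ≤ D s t F F := fun k => by
    have h1 := dis_split (hG k)
    have h2 : 0 ≤ D s t (F - G k) (F - G k) := D_nonneg _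
    rw [hd]
    linarith
  have hdd : ∀ k k', k ≤ k' → D s t (G k - G k') (G k - G k') ≤ d k - d k' := fun k k' hk => by
    have h1 := dis_split2 hk (hG k) (hG k')
    rw [hd, hd]
    linarith
  have hanti : ∀ k k', k ≤ k' → d k' ≤ d k := fun k k' hk => by
    have h1 := hdd k k' hk
    have h2 : 0 ≤ D s t (G k - G k') (G k - G k') := D_nonneg _
    linarith
  obtain ⟨p, hp⟩ : ∃ p : ℕ → ℤ, ∀ j, p j = 4 * ((2 : ℤ) ^ j - 1) := ⟨fun j => 4 * ((2 : ℤ) ^ j - 1), fun j => rfl⟩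
  have hpow : ∀ j : ℕ, (1 : ℤ) ≤ 2 ^ j := fun j => one_le_pow₀ (by norm_num)
  have hps : ∀ j : ℕ, p (j + 1) = p j + 4 * 2 ^ j := fun j => by
    rw [hp, hp, pow_succ]
    ring
  have hple : ∀ j, p j + 4 ≤ p (j + 1) := fun j => by
    have := hpow j
    rw [hps]
    linarith
  obtain ⟨b, hb⟩ : ∃ b : ℕ → ℝ, ∀ j, b j = D s t (G (p j - 3) - G (p (j + 1))) (G (p j - 3) - G (p (j + 1))) :=
    ⟨fun j => D s t (G (p j - 3) - G (p (j + 1))) (G (p j - 3) - G (p (j + 1))), fun j => rfl⟩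
  have hb0 : ∀ j, 0 ≤ b j := fun j => by rw [hb]; exact D_nonneg _
  have hbd : ∀ j, b j ≤ d (p j - 3) - d (p (j + 1)) := fun j => by
    rw [hb]
    exact hdd _ _ (by have := hple j; linarith)
  have hb1 : ∀ j, b j ≤ 1 := fun j => by
    have h1 := hbd j
    have h2 := hdF (p j - 3)
    have h3 := hd0 (p (j + 1))
    linarith
  -- one block
  have hblock : ∀ j, En l (bnd F (p j) (p (j + 1))) F ≤ 16 * D s t F F * T (p (j + 1)) + 8 * M * b j := fun j => by
    have h1 := block hT (F := F) (p := p j) (q := p (j + 1)) (by have := hple j; linarith) hF (hG (p j - 3)) (hG (p (j + 1)))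
    have h2 := pp_all hT (j + 3) (G (p j - 3) - G (p (j + 1))) (by rw [← hb]; exact hb1 j) (p j - 2) (p (j + 1) + 2) (by
      rw [hps]
      push_cast
      have h3 : (2 : ℤ) ^ (j + 3) = 8 * 2 ^ j := by
        rw [pow_add]
        ring
      have h4 := hpow j
      rw [h3]
      linarith)
    have h5 : p j - 2 - (((j + 3 + 2) ^ 2 : ℕ) : ℤ) = 4 * ((2 : ℤ) ^ j - 1) - 2 - ((j : ℤ) + 5) ^ 2 := by
      rw [hp]
      push_cast
      ring
    have h6 : (144 : ℝ) * (((j + 3 : ℕ) : ℝ) + 1) ^ 2 = 144 * ((j : ℝ) + 4) ^ 2 := by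
      push_cast
      ring
    rw [h5, h6, ← hb] at h2
    have h7 := mul_le_mul_of_nonneg_right (hM j) (hb0 j)
    have h8 : T (p (j + 1)) * D s t (G (p (j + 1))) (G (p (j + 1))) ≤ T (p (j + 1)) * D s t F F := by
      refine mul_le_mul_of_nonneg_left ?_ (hT.nonneg _)
      rw [← hd]
      exact hdF _
    nlinarith [h1, h2, h7, h8]
  -- the cover
  have hcover : ∀ J : ℕ, En l (bnd F 0 (p J)) F ≤ ∑ j ∈ range J, (16 * D s t F F * T (p (j + 1)) + 8 * M * b j) := by
    intro J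
    induction J with
    | zero =>
      rw [Finset.sum_range_zero, bnd_empty (by rw [hp]; norm_num)]
      simp [En]
    | succ J ih =>
      rw [Finset.sum_range_succ]
      exact (En_union_le hT.pos (bnd_split F 0 (p J) (p (J + 1))) F).trans (add_le_add ih (hblock J))
  -- the telescoping sum
  obtain ⟨e, he⟩ : ∃ e : ℕ → ℝ, e 0 = D s t F F ∧ ∀ j, e (j + 1) = d (p j) :=
    ⟨fun n => Nat.casesOn n (D s t F F) fun j => d (p j), rfl, fun j => rfl⟩
  have hbe : ∀ j, b j ≤ e j - e (j + 2) := fun j => by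
    have h1 := hbd j
    have h2 : d (p j - 3) ≤ e j := by
      cases j with
      | zero =>
        rw [he.1]
        exact hdF _
      | succ j =>
        rw [he.2]
        exact hanti _ _ (by have := hple j; linarith)
    rw [he.2 (j + 1)]
    linarith
  have he0 : ∀ j, 0 ≤ e j := fun j => by
    cases j with
    | zero =>
      rw [he.1]
      exact hF0
    | succ j =>
      rw [he.2]
      exact hd0 _
  have htel : ∀ J : ℕ, ∑ j ∈ range J, b j ≤ e 0 + e 1 - e J - e (J + 1) := by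
    intro J
    induction J with
    | zero => simp
    | succ J ih =>
      rw [Finset.sum_range_succ]
      have h1 := hbe J
      have h2 : e (J + 1 + 1) = e (J + 2) := rfl
      linarith
  have hsumb : ∑ j ∈ range J, b j ≤ 2 * D s t F F := by
    have h1 := htel J
    have h2 := he0 J
    have h3 := he0 (J + 1)
    have h4 : e 1 ≤ D s t F F := by
      have h5 := he.2 0
      rw [zero_add] at h5
      rw [h5]
      exact hdF _
    rw [he.1] at h1
    linarith
  have hsumT : ∑ j ∈ range J, T (p (j + 1)) ≤ M' := by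
    refine le_of_eq_of_le ?_ (hM' J)
    exact Finset.sum_congr rfl fun j _ => by rw [hp]
  have h1 := hcover J
  rw [Finset.sum_add_distrib, ← Finset.mul_sum, ← Finset.mul_sum] at h1
  have h2 := mul_le_mul_of_nonneg_left hsumT (by positivity : (0 : ℝ) ≤ 16 * D s t F F)
  have h3 := mul_le_mul_of_nonneg_left hsumb (by positivity : (0 : ℝ) ≤ 8 * M)
  rw [← hp]
  calc En l (bnd F 0 (p J)) F ≤ 16 * D s t F F * M' + 8 * M * (2 * D s t F F) := by linarith
    _ = (16 * M' + 16 * M) * D s t F F := by ring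

end Pool.Agent.H44C
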