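import Mathlib

/-!
# H44C Defs: finite networks, pair energies, condensers

`V` is the finite set of the vertices, the edge `e : E` joins `s e` and `t e`.  `D s t φ ψ` is the Dirichlet form.
`l : V × V → ℝ` is a nonnegative weight on the pairs and `En l S φ` is the sum of `l z * (φ z.1 - φ z.2) ^ 2` over the
pairs in `S`.

A function `G` which is harmonic at all vertices `x` with `0 < G x < 1` is (as a function on the metric graph, linear on the
edges) the potential of a condenser; its potential is the truncation `cl G`, its capacity is `D s t G (cl G)`.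
-/

set_option autoImplicit false

open Finset

namespace Pool.Agent.H44C

variable {V E : Type} [Fintype V] [DecidableEq V] [Fintype E]

/-- the Dirichlet form of the network -/
def D (s t : E → V) (φ ψ : V → ℝ) : ℝ := ∑ e, (φ (s e) - φ (t e)) * (ψ (s e) - ψ (t e))

/-- the energy of `φ` with respect to the weight `l` on the pairs, over the pairs in `S` -/
def En (l : V × V → ℝ) (S : Finset (V × V)) (φ : V → ℝ) : ℝ := ∑ z ∈ S, l z * (φ z.1 - φ z.2) ^ 2

open Classical in
/-- the pairs with `2 ^ p < |F x - F y| ≤ 2 ^ q` -/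
noncomputable def bnd (F : V → ℝ) (p q : ℤ) : Finset (V × V) :=
  univ.filter fun z => (2 : ℝ) ^ p < |F z.1 - F z.2| ∧ |F z.1 - F z.2| ≤ (2 : ℝ) ^ q

/-- truncation to `[0, 1]` -/
noncomputable def clip (x : ℝ) : ℝ := max 0 (min 1 x)

/-- the truncated function -/
noncomputable def cl (G : V → ℝ) : V → ℝ := fun x => clip (G x)

/-- the function `G` is harmonic at the vertex `x` -/
def Hm (s t : E → V) (G : V → ℝ) (x : V) : Prop := D s t G (Pi.single x 1) = 0

/-- `G` is harmonic between the levels `0` and `1` -/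
def Cond (s t : E → V) (G : V → ℝ) : Prop := ∀ x, 0 < G x → G x < 1 → Hm s t G x

/-- the testing condition with the rate `T k` for the condensers of capacity at most `4 ^ (- k)` -/
structure Tst (s t : E → V) (l : V × V → ℝ) (T : ℤ → ℝ) : Prop where
  pos : ∀ z, 0 ≤ l z
  nonneg : ∀ k, 0 ≤ T k
  anti : Antitone T
  test : ∀ (k : ℤ) (G : V → ℝ), Cond s t G → D s t G (cl G) ≤ (4 : ℝ) ^ (-k) → En l univ (cl G) ≤ T k * D s t G (cl G)

/-- `φ` and `F` are between the same neighbouring multiples of `2 ^ k` -/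
def KK (F : V → ℝ) (k : ℤ) (φ : V → ℝ) : Prop :=
  ∀ x, ∀ m : ℤ, (F x ≤ m * (2 : ℝ) ^ k → φ x ≤ m * (2 : ℝ) ^ k) ∧ (m * (2 : ℝ) ^ k ≤ F x → m * (2 : ℝ) ^ k ≤ φ x)

/-- `G` is the discretisation of `F` at the scale `2 ^ k`: it minimises the energy in `KK F k` -/
structure Dis (s t : E → V) (F : V → ℝ) (k : ℤ) (G : V → ℝ) : Prop where
  mem : KK F k G
  var : ∀ φ, KK F k φ → 0 ≤ D s t G (φ - G)

/-- for the pairs in `n` consecutive dyadic scales the energy is at most `θ` times the rate at the scale which is lower by `σ` -/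
def PP (s t : E → V) (l : V × V → ℝ) (T : ℤ → ℝ) (n : ℕ) (θ : ℝ) (σ : ℕ) : Prop :=
  ∀ F : V → ℝ, D s t F F ≤ 1 → ∀ p q : ℤ, q ≤ p + n → En l (bnd F p q) F ≤ θ * T (p - σ) * D s t F F

end Pool.Agent.H44C
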