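import Pool.Agent.H44C.ExDis

/-!
# H44C DisB: elementary properties of the discretisation
-/

set_option autoImplicit false
set_option linter.unusedSectionVars false
set_option linter.unusedVariables false

open Finset

namespace Pool.Agent.H44C

variable {V E : Type} [Fintype V] [DecidableEq V] [Fintype E] {s t : E → V} {l : V × V → ℝ} {T : ℤ → ℝ}

theorem KK_self (F : V → ℝ) (k : ℤ) : KK F k F := fun x m => ⟨id, id⟩

theorem KK_mono {F φ : V → ℝ} {k k' : ℤ} (hk : k ≤ k') (h : KK F k φ) : KK F k' φ := by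
  obtain ⟨n, rfl⟩ := Int.le.dest hk
  intro x m
  have e : (m : ℝ) * (2 : ℝ) ^ (k + n) = ((m * 2 ^ n : ℤ) : ℝ) * (2 : ℝ) ^ k := by
    rw [zpow_add₀ two_ne_zero, zpow_natCast]
    push_cast
    ring
  rw [e]
  exact h x (m * 2 ^ n)

/-- the function and its discretisation differ by at most `2 ^ k` -/
theorem KK_close {F φ : V → ℝ} {k : ℤ} (h : KK F k φ) (x : V) : |F x - φ x| ≤ (2 : ℝ) ^ k := by
  have hr : (0 : ℝ) < (2 : ℝ) ^ k := zpow_pos two_pos k
  have h1 : (⌊F x / (2 : ℝ) ^ k⌋ : ℝ) * (2 : ℝ) ^ k ≤ F x := by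
    rw [← le_div_iff₀ hr]
    exact Int.floor_le _
  have h2 : F x ≤ ((⌊F x / (2 : ℝ) ^ k⌋ + 1 : ℤ) : ℝ) * (2 : ℝ) ^ k := by
    rw [← div_le_iff₀ hr]
    push_cast
    exact (Int.lt_floor_add_one _).le
  have h3 := (h x ⌊F x / (2 : ℝ) ^ k⌋).2 h1
  have h4 := (h x (⌊F x / (2 : ℝ) ^ k⌋ + 1)).1 h2
  push_cast at h2 h4
  rw [abs_le]
  constructor <;> linarith

/-- the differences differ by at most `2 ^ (k + 1)` -/
theorem KK_diff {F φ : V → ℝ} {k : ℤ} (h : KK F k φ) (x y : V) : |(F x - F y) - (φ x - φ y)| ≤ (2 : ℝ) ^ (k + 1) := by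
  have h1 := abs_le.1 (KK_close h x)
  have h2 := abs_le.1 (KK_close h y)
  rw [zpow_add₀ two_ne_zero, zpow_one, abs_le]
  constructor <;> linarith

theorem dis_split_aux {F G : V → ℝ} (h : 0 ≤ D s t G (F - G)) : D s t (F - G) (F - G) + D s t G G ≤ D s t F F := by
  rw [D_sub] at h
  have h1 : D s t (F - G) (F - G) = D s t F F - 2 * D s t G F + D s t G G := by
    rw [D_sub, D_sub', D_sub', D_comm F G]
    ring
  rw [h1]
  linarith

theorem dis_split {F G : V → ℝ} {k : ℤ} (h : Dis s t F k G) : D s t (F - G) (F - G) + D s t G G ≤ D s t F F :=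
  dis_split_aux (h.var F (KK_self F k))

theorem dis_split2 {F G G' : V → ℝ} {k k' : ℤ} (hk : k ≤ k') (h : Dis s t F k G) (h' : Dis s t F k' G') :
    D s t (G - G') (G - G') + D s t G' G' ≤ D s t G G :=
  dis_split_aux (h'.var G (KK_mono hk h.mem))

end Pool.Agent.H44C
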