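import Pool.Agent.H44C.Basic

/-!
# H44C ExDis: existence of the discretisation, it is harmonic between the levels

Write `r = 2 ^ k > 0` (`(2 : ℝ) ^ k`, `k : ℤ`).

* `kk_iff`: `KK F k φ` iff `φ x ∈ Icc (r * ⌊F x / r⌋) (r * ⌈F x / r⌉)` for all `x`.  (→: take `m = ⌈F x / r⌉` in the first and `m = ⌊F x / r⌋` in the second part.
  ←: `F x ≤ m * r` gives `F x / r ≤ m`, `⌈F x / r⌉ ≤ m` (`Int.ceil_le`); similarly `Int.le_floor`.)
* `exists_dis`: the set of the `φ` with `KK F k φ` is `Set.pi univ (fun x => Icc (a x) (b x))`, compact (`isCompact_univ_pi`, `isCompact_Icc`) and contains `F`;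
  `φ ↦ D s t φ φ` is continuous (`continuity`/`fun_prop` after unfolding `D`), so there is a minimum `G` (`IsCompact.exists_isMinOn`).  For `φ` in the set and `θ ∈ (0, 1]` the function `G + θ • (φ - G)` is in the set (intervals are convex), so
  `D G G ≤ D (G + θ (φ - G)) (G + θ (φ - G)) = D G G + 2 θ D G (φ - G) + θ ^ 2 D (φ - G) (φ - G)`, so `0 ≤ 2 D G (φ - G) + θ * D (φ - G) (φ - G)` for all `θ ∈ (0, 1]`; hence `0 ≤ D G (φ - G)`
  (otherwise take `θ` small: `θ = min 1 (- D G (φ - G) / (D (φ - G) (φ - G) + 1))`).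
* `dis_harm`: `m r < G x < (m + 1) r`.  For small `ε` with `|ε| ≤ ε₀ := min (G x - m r) ((m + 1) r - G x)` the function `G + ε • Pi.single x 1` is in `KK F k`: at `y ≠ x` nothing changes; at `x`: if `F x ≤ m' r` then `G x ≤ m' r`, so `m < m'`
  (as `m r < G x ≤ m' r`), `m + 1 ≤ m'`, and `G x + ε ≤ (m + 1) r ≤ m' r`; similarly below.  So `0 ≤ D G (ε • Pi.single x 1) = ε * D G (Pi.single x 1)` for `ε = ε₀` and `ε = - ε₀`.
-/

set_option autoImplicit false
set_option linter.unusedSectionVars false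
set_option linter.unusedVariables false

open Finset

namespace Pool.Agent.H44C

variable {V E : Type} [Fintype V] [DecidableEq V] [Fintype E] {s t : E → V} {l : V × V → ℝ} {T : ℤ → ℝ}

theorem kk_iff {F φ : V → ℝ} {k : ℤ} : KK F k φ ↔
    ∀ x, φ x ∈ Set.Icc ((⌊F x / (2 : ℝ) ^ k⌋ : ℝ) * (2 : ℝ) ^ k) ((⌈F x / (2 : ℝ) ^ k⌉ : ℝ) * (2 : ℝ) ^ k) := by
  have hr : (0 : ℝ) < (2 : ℝ) ^ k := by positivity
  constructor
  · intro h x
    exact ⟨(h x ⌊F x / (2 : ℝ) ^ k⌋).2 ((le_div_iff₀ hr).1 (Int.floor_le _)),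
      (h x ⌈F x / (2 : ℝ) ^ k⌉).1 ((div_le_iff₀ hr).1 (Int.le_ceil _))⟩
  · intro h x m
    refine ⟨fun h1 => (h x).2.trans (mul_le_mul_of_nonneg_right ?_ hr.le),
      fun h1 => le_trans (mul_le_mul_of_nonneg_right ?_ hr.le) (h x).1⟩
    · exact_mod_cast Int.ceil_le.2 ((div_le_iff₀ hr).2 h1)
    · exact_mod_cast Int.le_floor.2 ((le_div_iff₀ hr).2 h1)

theorem exists_dis (s t : E → V) (F : V → ℝ) (k : ℤ) : ∃ G : V → ℝ, Dis s t F k G := by
  have hK : IsCompact (Set.pi Set.univ (fun x : V =>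
      Set.Icc ((⌊F x / (2 : ℝ) ^ k⌋ : ℝ) * (2 : ℝ) ^ k) ((⌈F x / (2 : ℝ) ^ k⌉ : ℝ) * (2 : ℝ) ^ k))) :=
    isCompact_univ_pi fun x => isCompact_Icc
  have hmem : ∀ φ : V → ℝ, φ ∈ (Set.pi Set.univ (fun x : V =>
      Set.Icc ((⌊F x / (2 : ℝ) ^ k⌋ : ℝ) * (2 : ℝ) ^ k) ((⌈F x / (2 : ℝ) ^ k⌉ : ℝ) * (2 : ℝ) ^ k))) ↔
      KK F k φ := fun φ => by
    rw [kk_iff, Set.mem_univ_pi]
  have hF : KK F k F := fun x m => ⟨id, id⟩
  have hc : Continuous fun φ : V → ℝ => D s t φ φ := by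
    unfold D
    fun_prop
  obtain ⟨G, hG, hmin⟩ := hK.exists_isMinOn ⟨F, (hmem F).2 hF⟩ hc.continuousOn
  have hG' := (hmem G).1 hG
  refine ⟨G, hG', fun φ hφ => ?_⟩
  set v := D s t G (φ - G) with hv
  set w := D s t (φ - G) (φ - G) with hw
  have hw0 : 0 ≤ w := D_nonneg _
  have key : ∀ θ : ℝ, 0 < θ → θ ≤ 1 → 0 ≤ 2 * v + θ * w := by
    intro θ h0 h1
    have hin : KK F k (G + θ • (φ - G)) := by
      rw [kk_iff] at hG' hφ ⊢
      intro x
      have h2 := hG' x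
      have h3 := hφ x
      rw [Set.mem_Icc] at h2 h3 ⊢
      simp only [Pi.add_apply, Pi.smul_apply, Pi.sub_apply, smul_eq_mul]
      constructor
      · nlinarith [mul_nonneg (sub_nonneg.2 h1) (sub_nonneg.2 h2.1),
          mul_nonneg h0.le (sub_nonneg.2 h3.1)]
      · nlinarith [mul_nonneg (sub_nonneg.2 h1) (sub_nonneg.2 h2.2),
          mul_nonneg h0.le (sub_nonneg.2 h3.2)]
    have h4 : D s t G G ≤ D s t (G + θ • (φ - G)) (G + θ • (φ - G)) := hmin ((hmem _).2 hin)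
    have h5 : D s t (G + θ • (φ - G)) (G + θ • (φ - G)) = D s t G G + 2 * θ * v + θ ^ 2 * w := by
      rw [D_add, D_add', D_add', D_smul, D_smul, D_smul', D_smul', D_comm (φ - G) G, ← hv, ← hw]
      ring
    rw [h5] at h4
    have h6 : 0 ≤ θ * (2 * v + θ * w) := by nlinarith
    exact nonneg_of_mul_nonneg_right h6 h0
  by_contra hneg
  push Not at hneg
  set θ := min 1 (-v / (w + 1)) with hθ
  have hw1 : 0 < w + 1 := by linarith
  have hθ0 : 0 < θ := lt_min one_pos (div_pos (by linarith) hw1)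
  have hθ1 : θ ≤ 1 := min_le_left _ _
  have hθ2 : θ * (w + 1) ≤ -v := by
    have := min_le_right 1 (-v / (w + 1))
    rw [← hθ, le_div_iff₀ hw1] at this
    exact this
  have := key θ hθ0 hθ1
  nlinarith

theorem dis_harm {F G : V → ℝ} {k : ℤ} (h : Dis s t F k G) (x : V) (m : ℤ) (h1 : m * (2 : ℝ) ^ k < G x) (h2 : G x < (m + 1) * (2 : ℝ) ^ k) :
    Hm s t G x := by
  have hr : (0 : ℝ) < (2 : ℝ) ^ k := by positivity
  have hkk : ∀ ε : ℝ, m * (2 : ℝ) ^ k ≤ G x + ε → G x + ε ≤ (m + 1) * (2 : ℝ) ^ k →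
      KK F k (G + ε • Pi.single x 1) := by
    intro ε h3 h4 y m'
    have h5 := h.mem y m'
    by_cases hy : y = x
    · subst hy
      simp only [Pi.add_apply, Pi.smul_apply, Pi.single_eq_same, smul_eq_mul, mul_one]
      refine ⟨fun h6 => ?_, fun h6 => ?_⟩
      · have h7 := h5.1 h6
        have h8 : (m : ℝ) < m' := lt_of_mul_lt_mul_right (h1.trans_le h7) hr.le
        have h9 : (m : ℝ) + 1 ≤ m' := by exact_mod_cast Int.add_one_le_iff.2 (by exact_mod_cast h8)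
        exact h4.trans (mul_le_mul_of_nonneg_right h9 hr.le)
      · have h7 := h5.2 h6
        have h8 : (m' : ℝ) < m + 1 := lt_of_mul_lt_mul_right (h7.trans_lt h2) hr.le
        have h9 : (m' : ℝ) ≤ m := by
          have : m' < m + 1 := by exact_mod_cast h8
          exact_mod_cast Int.lt_add_one_iff.1 this
        exact (mul_le_mul_of_nonneg_right h9 hr.le).trans h3
    · simp only [Pi.add_apply, Pi.smul_apply, Pi.single_eq_of_ne hy, smul_eq_mul, mul_zero, add_zero]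
      exact h5
  set ε := min (G x - m * (2 : ℝ) ^ k) ((m + 1) * (2 : ℝ) ^ k - G x) with hε
  have hε0 : 0 < ε := lt_min (by linarith) (by linarith)
  have hε1 : ε ≤ G x - m * (2 : ℝ) ^ k := min_le_left _ _
  have hε2 : ε ≤ (m + 1) * (2 : ℝ) ^ k - G x := min_le_right _ _
  have h3 := h.var _ (hkk ε (by linarith) (by linarith))
  have h4 := h.var _ (hkk (-ε) (by linarith) (by linarith))
  rw [add_sub_cancel_left, D_smul] at h3 h4
  have h5 : 0 ≤ D s t G (Pi.single x 1) := nonneg_of_mul_nonneg_right h3 hε0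
  have h6 : D s t G (Pi.single x 1) ≤ 0 := by
    by_contra hc
    push Not at hc
    nlinarith [mul_pos hε0 hc]
  exact le_antisymm h6 h5

end Pool.Agent.H44C
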