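import Mathlib

/-!
# H44C Rate: the rate function

`rate τ k = τ / (1 + log (max 1 (k log 4))) ^ 2`.

* `rate_anti`: `k ↦ max 1 (k log 4)` is monotone, `log` is monotone on `[1, ∞)`, `log ≥ 0` there.
* `rate_block`: enough `j + 4 ≤ 9 * (1 + log (max 1 (K log 4)))` for `K = 4 (2 ^ j - 1) - 2 - (j + 5) ^ 2` (then `144 (j + 4) ^ 2 ≤ 144 * 81 * (..) ^ 2`, `144 * 81 = 11664`).  For `j ≤ 5`: `j + 4 ≤ 9` and `log (max 1 _) ≥ 0`.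
  For `j ≥ 6`: `6 + (j + 5) ^ 2 ≤ 2 * 2 ^ j` (induction from `j = 6`: `127 ≤ 128`), so `K ≥ 2 * 2 ^ j` and `K log 4 ≥ 2 ^ (j + 1)` (`log 4 = 2 log 2 ≥ 1`: `Real.log_two_gt_d9`), `log (2 ^ (j + 1)) = (j + 1) log 2 ≥ (j + 1) / 2`, `9 (1 + (j + 1) / 2) ≥ j + 4`.
* `rate_sum`: `4 (2 ^ (j + 1) - 1) log 4 ≥ 4 * 2 ^ j * 1 = 2 ^ (j + 2)` (as `2 ^ (j + 1) - 1 ≥ 2 ^ j`), so `1 + log (..) ≥ 1 + (j + 2) log 2 ≥ (j + 2) / 2` and the term is at most `4 τ / (j + 2) ^ 2 ≤ 4 τ (1 / (j + 1) - 1 / (j + 2))`; the sum is at most `4 τ (1 - 1 / (J + 1)) ≤ 4 τ`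
  (prove the bound `4 τ (1 - 1 / (J + 1))` by induction on `J`).
-/

set_option autoImplicit false

open Finset

namespace Pool.Agent.H44C

/-- the rate for the condensers of capacity `≤ 4 ^ (- k)` -/
noncomputable def rate (τ : ℝ) (k : ℤ) : ℝ := τ / (1 + Real.log (max 1 ((k : ℝ) * Real.log 4))) ^ 2

theorem rate_nonneg {τ : ℝ} (hτ : 0 ≤ τ) (k : ℤ) : 0 ≤ rate τ k := by
  exact div_nonneg hτ (sq_nonneg _)

private theorem rt_log4 : (1 : ℝ) ≤ Real.log 4 := by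
  have h : Real.log 4 = 2 * Real.log 2 := by
    rw [show (4 : ℝ) = 2 ^ 2 by norm_num, Real.log_pow]
    norm_num
  have := Real.log_two_gt_d9
  rw [h]
  linarith

private theorem rt_L_nonneg (x : ℝ) : 0 ≤ Real.log (max 1 x) := Real.log_nonneg (le_max_left _ _)

theorem rate_anti {τ : ℝ} (hτ : 0 ≤ τ) : Antitone (rate τ) := by
  intro a b hab
  unfold rate
  have h1 : ((a : ℝ) * Real.log 4) ≤ (b : ℝ) * Real.log 4 :=
    mul_le_mul_of_nonneg_right (by exact_mod_cast hab) (zero_le_one.trans rt_log4)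
  have h2 : Real.log (max 1 ((a : ℝ) * Real.log 4)) ≤ Real.log (max 1 ((b : ℝ) * Real.log 4)) :=
    Real.log_le_log (lt_of_lt_of_le zero_lt_one (le_max_left _ _)) (max_le_max_left _ h1)
  have h3 := rt_L_nonneg ((a : ℝ) * Real.log 4)
  refine div_le_div_of_nonneg_left hτ (by positivity) ?_
  exact pow_le_pow_left₀ (by linarith) (by linarith) 2

private theorem rt_pow (j : ℕ) (hj : 6 ≤ j) : 6 + ((j : ℤ) + 5) ^ 2 ≤ 2 * (2 : ℤ) ^ j := by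
  induction j, hj using Nat.le_induction with
  | base => norm_num
  | succ n hn ih =>
    have hn' : (6 : ℤ) ≤ n := by exact_mod_cast hn
    have e : (2 : ℤ) ^ (n + 1) = 2 * 2 ^ n := by ring
    rw [e]
    push_cast
    have e2 : ((n : ℤ) + 1 + 5) ^ 2 = ((n : ℤ) + 5) ^ 2 + 2 * n + 11 := by ring
    have e3 : ((n : ℤ) + 5) ^ 2 = (n : ℤ) * n + 10 * n + 25 := by ring
    have e4 : 0 ≤ (n : ℤ) * n := mul_self_nonneg _
    rw [e2]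
    linarith

private theorem rt_main (j : ℕ) :
    (j : ℝ) + 4 ≤ 9 * (1 + Real.log (max 1 (((4 * ((2 : ℤ) ^ j - 1) - 2 - ((j : ℤ) + 5) ^ 2 : ℤ) : ℝ) * Real.log 4))) := by
  have h0 := rt_L_nonneg (((4 * ((2 : ℤ) ^ j - 1) - 2 - ((j : ℤ) + 5) ^ 2 : ℤ) : ℝ) * Real.log 4)
  rcases le_or_gt j 5 with h | h
  · have : (j : ℝ) ≤ 5 := by exact_mod_cast h
    linarith
  · have h1 := rt_pow j h
    have h2 : (2 : ℤ) * 2 ^ j ≤ 4 * ((2 : ℤ) ^ j - 1) - 2 - ((j : ℤ) + 5) ^ 2 := by linarith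
    have h3 : (2 : ℝ) ^ (j + 1) ≤ ((4 * ((2 : ℤ) ^ j - 1) - 2 - ((j : ℤ) + 5) ^ 2 : ℤ) : ℝ) := by
      have : (((2 : ℤ) * 2 ^ j : ℤ) : ℝ) ≤ ((4 * ((2 : ℤ) ^ j - 1) - 2 - ((j : ℤ) + 5) ^ 2 : ℤ) : ℝ) := by exact_mod_cast h2
      refine le_trans (le_of_eq ?_) this
      push_cast
      ring
    have h4 : (2 : ℝ) ^ (j + 1) ≤ ((4 * ((2 : ℤ) ^ j - 1) - 2 - ((j : ℤ) + 5) ^ 2 : ℤ) : ℝ) * Real.log 4 := by
      have h5 : (0 : ℝ) ≤ (2 : ℝ) ^ (j + 1) := by positivity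
      have h6 := rt_log4
      nlinarith
    have h7 : ((j : ℝ) + 1) * Real.log 2 ≤ Real.log (max 1 (((4 * ((2 : ℤ) ^ j - 1) - 2 - ((j : ℤ) + 5) ^ 2 : ℤ) : ℝ) * Real.log 4)) := by
      have e : ((j : ℝ) + 1) * Real.log 2 = Real.log ((2 : ℝ) ^ (j + 1)) := by
        rw [Real.log_pow]
        push_cast
        ring
      rw [e]
      exact Real.log_le_log (by positivity) (h4.trans (le_max_right _ _))
    have h8 := Real.log_two_gt_d9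
    have h9 : ((j : ℝ) + 1) * (1 / 2) ≤ ((j : ℝ) + 1) * Real.log 2 :=
      mul_le_mul_of_nonneg_left (by linarith) (by positivity)
    have h10 : (0 : ℝ) ≤ j := Nat.cast_nonneg j
    linarith

theorem rate_block {τ : ℝ} (hτ : 0 ≤ τ) (j : ℕ) :
    144 * ((j : ℝ) + 4) ^ 2 * rate τ (4 * ((2 : ℤ) ^ j - 1) - 2 - ((j : ℤ) + 5) ^ 2) ≤ 11664 * τ := by
  unfold rate
  have h0 := rt_L_nonneg (((4 * ((2 : ℤ) ^ j - 1) - 2 - ((j : ℤ) + 5) ^ 2 : ℤ) : ℝ) * Real.log 4)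
  have h1 := rt_main j
  set L := Real.log (max 1 (((4 * ((2 : ℤ) ^ j - 1) - 2 - ((j : ℤ) + 5) ^ 2 : ℤ) : ℝ) * Real.log 4)) with hL
  have h2 : (0 : ℝ) < (1 + L) ^ 2 := by positivity
  rw [← mul_div_assoc, div_le_iff₀ h2]
  have h3 : ((j : ℝ) + 4) ^ 2 ≤ (9 * (1 + L)) ^ 2 := pow_le_pow_left₀ (by positivity) h1 2
  have h4 := mul_le_mul_of_nonneg_right h3 hτ
  nlinarith

private theorem rt_term {τ : ℝ} (hτ : 0 ≤ τ) (j : ℕ) :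
    rate τ (4 * ((2 : ℤ) ^ (j + 1) - 1)) ≤ 4 * τ * (1 / ((j : ℝ) + 1) - 1 / ((j : ℝ) + 2)) := by
  unfold rate
  have h0 := rt_L_nonneg (((4 * ((2 : ℤ) ^ (j + 1) - 1) : ℤ) : ℝ) * Real.log 4)
  have h3 : (2 : ℝ) ^ (j + 2) ≤ ((4 * ((2 : ℤ) ^ (j + 1) - 1) : ℤ) : ℝ) := by
    push_cast
    have h5 : (1 : ℝ) ≤ (2 : ℝ) ^ j := one_le_pow₀ one_le_two
    rw [pow_succ, pow_succ]
    linarith
  have h4 : (2 : ℝ) ^ (j + 2) ≤ ((4 * ((2 : ℤ) ^ (j + 1) - 1) : ℤ) : ℝ) * Real.log 4 := by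
    have h5 : (0 : ℝ) ≤ (2 : ℝ) ^ (j + 2) := by positivity
    have h6 := rt_log4
    nlinarith
  have h7 : ((j : ℝ) + 2) * Real.log 2 ≤ Real.log (max 1 (((4 * ((2 : ℤ) ^ (j + 1) - 1) : ℤ) : ℝ) * Real.log 4)) := by
    have e : ((j : ℝ) + 2) * Real.log 2 = Real.log ((2 : ℝ) ^ (j + 2)) := by
      rw [Real.log_pow]
      push_cast
      ring
    rw [e]
    exact Real.log_le_log (by positivity) (h4.trans (le_max_right _ _))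
  set L := Real.log (max 1 (((4 * ((2 : ℤ) ^ (j + 1) - 1) : ℤ) : ℝ) * Real.log 4)) with hL
  have h8 := Real.log_two_gt_d9
  have h10 : (0 : ℝ) ≤ j := Nat.cast_nonneg j
  have h9 : ((j : ℝ) + 2) * (1 / 2) ≤ ((j : ℝ) + 2) * Real.log 2 :=
    mul_le_mul_of_nonneg_left (by linarith) (by positivity)
  have h11 : ((j : ℝ) + 2) / 2 ≤ 1 + L := by linarith
  have h12 : (((j : ℝ) + 2) / 2) ^ 2 ≤ (1 + L) ^ 2 := pow_le_pow_left₀ (by positivity) h11 2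
  have h13 : τ / (1 + L) ^ 2 ≤ τ / (((j : ℝ) + 2) / 2) ^ 2 := div_le_div_of_nonneg_left hτ (by positivity) h12
  refine h13.trans ?_
  have e1 : 4 * τ * (1 / ((j : ℝ) + 1) - 1 / ((j : ℝ) + 2)) - τ / (((j : ℝ) + 2) / 2) ^ 2 = 4 * τ / (((j : ℝ) + 1) * ((j : ℝ) + 2) ^ 2) := by
    field_simp
    ring
  have e2 : 0 ≤ 4 * τ / (((j : ℝ) + 1) * ((j : ℝ) + 2) ^ 2) := by positivity
  linarith

private theorem rt_ind {τ : ℝ} (hτ : 0 ≤ τ) (J : ℕ) :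
    ∑ j ∈ range J, rate τ (4 * ((2 : ℤ) ^ (j + 1) - 1)) ≤ 4 * τ * (1 - 1 / ((J : ℝ) + 1)) := by
  induction J with
  | zero => simp
  | succ n ih =>
    rw [Finset.sum_range_succ]
    have h := rt_term hτ n
    push_cast
    have e : (n : ℝ) + 1 + 1 = (n : ℝ) + 2 := by ring
    rw [e]
    linarith

theorem rate_sum {τ : ℝ} (hτ : 0 ≤ τ) (J : ℕ) : ∑ j ∈ range J, rate τ (4 * ((2 : ℤ) ^ (j + 1) - 1)) ≤ 4 * τ := by
  refine (rt_ind hτ J).trans ?_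
  have h1 : 0 ≤ 1 / ((J : ℝ) + 1) := by positivity
  have h2 := mul_nonneg hτ h1
  linarith

end Pool.Agent.H44C
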