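import Pool.Agent.H44C.Blocks
import Pool.Agent.H44C.Rate

/-!
# H44C Total: the inequality for the finite network

* `total_one`: `D F F = 1`.  Choose `J` with `|F x - F y| ≤ 2 ^ (4 * (2 ^ J - 1))` for all `x, y` (finitely many).  `univ ⊆ {z | |ΔF| ≤ 1} ∪ bnd F 0 (4 * (2 ^ J - 1))`; the first set contributes at most `∑ l z ≤ 1 = D F F`, the second
  at most `(16 * 4 τ + 16 * 11664 τ) * D F F` (`blocks_sum`, `rate_block`, `rate_sum`); `64 + 186624 ≤ 200000`.
* `total`: if `D F F > 0` apply this to `(√(D F F))⁻¹ • F` (`D_smul`, `D_smul'`, `En_smul`).  If `D F F = 0`: every edge has `F (s e) = F (t e)`.  Choose `b > 0`, `a` with `0 ≤ (F x - a) / b ≤ 1` for all `x` (finite), `G x = (F x - a) / b`: `cl G = G`, `D G φ = 0` for all `φ`, so `Cond`, and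
  the test (with `k = 0`) gives `En l univ G ≤ 0`; `En l univ F = b ^ 2 * En l univ G = 0`.
-/

set_option autoImplicit false
set_option linter.unusedSectionVars false
set_option linter.unusedVariables false

open Finset

namespace Pool.Agent.H44C

variable {V E : Type} [Fintype V] [DecidableEq V] [Fintype E] {s t : E → V} {l : V × V → ℝ} {T : ℤ → ℝ}

theorem total_one {τ : ℝ} (hτ : 0 ≤ τ) (hT : Tst s t l (rate τ)) (hm : ∑ z, l z ≤ 1) {F : V → ℝ} (hF : D s t F F = 1) :
    En l univ F ≤ 1 + 200000 * τ := by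
  classical
  obtain ⟨N, hN⟩ := pow_unbounded_of_one_lt (∑ z : V × V, |F z.1 - F z.2|) (one_lt_two (α := ℝ))
  have hb : ∀ z : V × V, |F z.1 - F z.2| ≤ (2 : ℝ) ^ (4 * ((2 : ℤ) ^ N - 1)) := by
    intro z
    have h1 : |F z.1 - F z.2| ≤ ∑ z : V × V, |F z.1 - F z.2| :=
      Finset.single_le_sum (f := fun z : V × V => |F z.1 - F z.2|) (fun i _ => abs_nonneg _) (Finset.mem_univ z)
    have h2 : ((N : ℤ)) ≤ 4 * ((2 : ℤ) ^ N - 1) := by
      have h3 : N < 2 ^ N := Nat.lt_two_pow_self
      have h4 : (N : ℤ) + 1 ≤ (2 : ℤ) ^ N := by exact_mod_cast h3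
      have h5 : (0 : ℤ) ≤ (N : ℤ) := Int.natCast_nonneg N
      linarith
    have h3 : (2 : ℝ) ^ N ≤ (2 : ℝ) ^ (4 * ((2 : ℤ) ^ N - 1)) := by
      rw [← zpow_natCast]
      exact zpow_le_zpow_right₀ one_le_two h2
    linarith
  have hbl := blocks_sum hT (M := 11664 * τ) (M' := 4 * τ) (by positivity) (fun j => rate_block hτ j) (fun J => rate_sum hτ J) hF.le N
  rw [hF, mul_one] at hbl
  have hcov : (univ : Finset (V × V)) ⊆ (univ.filter fun z : V × V => |F z.1 - F z.2| ≤ 1) ∪ bnd F 0 (4 * ((2 : ℤ) ^ N - 1)) := by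
    intro z _
    rw [Finset.mem_union, mem_bnd, Finset.mem_filter, zpow_zero]
    rcases le_or_gt (|F z.1 - F z.2|) 1 with h | h
    · exact Or.inl ⟨Finset.mem_univ _, h⟩
    · exact Or.inr ⟨h, hb z⟩
  have h1 := En_union_le hT.pos hcov F
  have h2 : En l (univ.filter fun z : V × V => |F z.1 - F z.2| ≤ 1) F ≤ ∑ z, l z := by
    unfold En
    refine (Finset.sum_le_sum (g := l) fun z hz => ?_).trans
      (Finset.sum_le_sum_of_subset_of_nonneg (Finset.filter_subset _ _) fun z _ _ => hT.pos z)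
    have h3 : |F z.1 - F z.2| ≤ 1 := (Finset.mem_filter.1 hz).2
    have h4 : (F z.1 - F z.2) ^ 2 ≤ 1 := by
      rw [← sq_abs]
      exact pow_le_one₀ (abs_nonneg _) h3
    calc l z * (F z.1 - F z.2) ^ 2 ≤ l z * 1 := mul_le_mul_of_nonneg_left h4 (hT.pos z)
      _ = l z := mul_one _
  linarith

theorem total {τ : ℝ} (hτ : 0 ≤ τ) (hT : Tst s t l (rate τ)) (hm : ∑ z, l z ≤ 1) (F : V → ℝ) :
    En l univ F ≤ (1 + 200000 * τ) * D s t F F := by
  classical
  rcases (D_nonneg (s := s) (t := t) F).lt_or_eq with hpos | hzero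
  · set d := D s t F F with hd
    have hs : √d * √d = d := Real.mul_self_sqrt hpos.le
    have hsp : 0 < √d := Real.sqrt_pos.2 hpos
    have h1 : D s t ((√d)⁻¹ • F) ((√d)⁻¹ • F) = 1 := by
      rw [D_smul, D_smul', ← hd]
      field_simp
      rw [sq, hs]
    have h2 := total_one hτ hT hm h1
    rw [En_smul] at h2
    have h3 : ((√d)⁻¹) ^ 2 = d⁻¹ := by
      rw [inv_pow, sq, hs]
    rw [h3] at h2
    have h4 : En l univ F = d * (d⁻¹ * En l univ F) := by
      rw [← mul_assoc, mul_inv_cancel₀ hpos.ne', one_mul]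
    rw [h4, mul_comm (1 + 200000 * τ)]
    exact mul_le_mul_of_nonneg_left h2 hpos.le
  · rw [← hzero, mul_zero]
    have he : ∀ e, F (s e) - F (t e) = 0 := by
      intro e
      have h1 : ∀ e ∈ (univ : Finset E), (F (s e) - F (t e)) * (F (s e) - F (t e)) = 0 :=
        (Finset.sum_eq_zero_iff_of_nonneg fun e _ => mul_self_nonneg _).1 hzero.symm
      exact mul_self_eq_zero.1 (h1 e (Finset.mem_univ e))
    set b : ℝ := 1 + ∑ x, |F x| with hb
    have hb1 : 1 ≤ b := by
      rw [hb]
      have : 0 ≤ ∑ x, |F x| := Finset.sum_nonneg fun x _ => abs_nonneg _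
      linarith
    have hb0 : 0 < 2 * b := by linarith
    have hFb : ∀ x, |F x| ≤ b := by
      intro x
      have h1 : |F x| ≤ ∑ x, |F x| := Finset.single_le_sum (f := fun x => |F x|) (fun i _ => abs_nonneg _) (Finset.mem_univ x)
      linarith
    set G : V → ℝ := fun x => (F x + b) / (2 * b) with hG
    have hG0 : ∀ x, 0 ≤ G x := by
      intro x
      have := (abs_le.1 (hFb x)).1
      exact div_nonneg (by linarith) hb0.le
    have hG1 : ∀ x, G x ≤ 1 := by
      intro x
      have := (abs_le.1 (hFb x)).2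
      rw [hG]
      exact (div_le_one hb0).2 (by linarith)
    have hcl : cl G = G := funext fun x => clip_of_mem (hG0 x) (hG1 x)
    have hD : ∀ φ, D s t G φ = 0 := by
      intro φ
      unfold D
      refine Finset.sum_eq_zero fun e _ => ?_
      have h1 : G (s e) - G (t e) = (F (s e) - F (t e)) / (2 * b) := by
        rw [hG]
        ring
      rw [h1, he e, zero_div, zero_mul]
    have hC : Cond s t G := fun x _ _ => hD _
    have h1 := hT.test 0 G hC (by rw [hcl, hD]; positivity)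
    rw [hcl, hD, mul_zero] at h1
    have h2 : En l univ F = (2 * b) ^ 2 * En l univ G := by
      rw [← En_smul]
      unfold En
      refine Finset.sum_congr rfl fun z _ => ?_
      have h3 : ((2 * b) • G) z.1 - ((2 * b) • G) z.2 = F z.1 - F z.2 := by
        simp only [Pi.smul_apply, smul_eq_mul, hG]
        field_simp
        ring
      rw [h3]
    rw [h2]
    exact mul_nonpos_of_nonneg_of_nonpos (sq_nonneg _) h1

end Pool.Agent.H44C
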