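import Pool.Agent.H44C.StepB

/-!
# H44C TotalN: the inequality with the number of edges in the support of the gradient

`T k = τ` for all `k`.

* If `d = D F F = 0` then all differences are `0` (`hs`).  Otherwise let `F' = (√d)⁻¹ • F`: `D F' F' = 1`, `(ΔF') ^ 2 ≤ n`, `En l univ F = d * En l univ F'`.
* `p = Nat.clog 4 n`: `n ≤ 4 ^ p` (`Nat.le_pow_clog`), and `p ≤ 1 + log n / log 4` (if `p ≥ 1` then `4 ^ (p - 1) < n`: `Nat.pow_pred_clog_lt_self`).  So `|ΔF'| ≤ 2 ^ p` (its square is `≤ 4 ^ p`).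
  `univ ⊆ {|ΔF'| ≤ 2 ^ (- p)} ∪ bnd F' (- p) p`.  The first part contributes at most `∑_{ΔF ≠ 0} l z * 4 ^ (- p) ≤ n τ 4 ^ (- p) ≤ τ`.
* `r = Nat.clog 2 (2 * p)`: `2 p ≤ 2 ^ r`, so `pp_all` (`r`) applies to `bnd F' (- p) p` (length `2 p ≤ 2 ^ r + 3`): at most `144 (r + 1) ^ 2 τ`.  `r + 1 ≤ 3 (1 + log (1 + log n))`: for `p = 0`, `r = 0`; for `p ≥ 1`: `2 ^ (r - 1) < 2 p`, so `2 ^ r < 4 p`, `r ≤ 2 + log p / log 2`,
  `p ≤ 1 + log n` (as `log 4 ≥ 1`), `1 / log 2 ≤ 3 / 2`, `r + 1 ≤ 3 + 3 / 2 * log (1 + log n)`.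
  In total `τ + 144 * 9 * (1 + log (1 + log n)) ^ 2 τ ≤ 1300 (1 + log (1 + log n)) ^ 2 τ`.
-/

set_option autoImplicit false
set_option linter.unusedSectionVars false
set_option linter.unusedVariables false

open Finset

namespace Pool.Agent.H44C

variable {V E : Type} [Fintype V] [DecidableEq V] [Fintype E] {s t : E → V} {l : V × V → ℝ} {T : ℤ → ℝ}

/-- the number of the dyadic steps -/
private theorem clog_bound {n : ℕ} (hn : 1 ≤ n) :
    ((Nat.clog 2 (2 * Nat.clog 4 n) : ℕ) : ℝ) + 1 ≤ 3 * (1 + Real.log (1 + Real.log n)) := by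
  have hn' : (1 : ℝ) ≤ n := by exact_mod_cast hn
  have hlogn : 0 ≤ Real.log n := Real.log_nonneg hn'
  have hΛ : 0 ≤ Real.log (1 + Real.log n) := Real.log_nonneg (by linarith)
  rcases Nat.eq_zero_or_pos (Nat.clog 4 n) with hp | hp
  · rw [hp]
    simp
    linarith
  · set p := Nat.clog 4 n with hpdef
    have hn1 : 1 < n := by
      by_contra hcon
      have : n = 1 := by omega
      rw [hpdef, this] at hp
      simp at hp
    have h4 : 4 ^ (p - 1) < n := Nat.pow_pred_clog_lt_self (by norm_num) hn1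
    have hlog2 := Real.log_two_gt_d9
    have hlog4 : Real.log 4 = 2 * Real.log 2 := by
      rw [show (4 : ℝ) = 2 ^ 2 by norm_num, Real.log_pow]; norm_num
    have hple : (p : ℝ) ≤ 1 + Real.log n := by
      have h4' : ((4 : ℝ) ^ (p - 1)) < n := by exact_mod_cast h4
      have h5 := Real.log_lt_log (by positivity) h4'
      rw [Real.log_pow, hlog4] at h5
      have h6 : ((p - 1 : ℕ) : ℝ) = (p : ℝ) - 1 := by
        rw [Nat.cast_sub hp]; simp
      rw [h6] at h5
      have h7 : (0 : ℝ) ≤ (p : ℝ) - 1 := by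
        have : (1 : ℝ) ≤ p := by exact_mod_cast hp
        linarith
      nlinarith
    set r := Nat.clog 2 (2 * p) with hrdef
    have h2p : 1 < 2 * p := by omega
    have hr : 2 ^ (r - 1) < 2 * p := Nat.pow_pred_clog_lt_self (by norm_num) h2p
    have hr1 : 1 ≤ r := Nat.clog_pos (by norm_num) (by omega)
    have hp1 : (1 : ℝ) ≤ p := by exact_mod_cast hp
    have hrle : (r : ℝ) * Real.log 2 < 2 * Real.log 2 + Real.log p := by
      have h1 : 2 ^ r < 4 * p := by
        obtain ⟨r', hr'⟩ : ∃ r', r = r' + 1 := ⟨r - 1, by omega⟩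
        rw [hr'] at hr ⊢
        simp only [Nat.add_sub_cancel] at hr
        rw [pow_succ]
        omega
      have h2 : ((2 : ℝ) ^ r) < 4 * p := by exact_mod_cast h1
      have h3 := Real.log_lt_log (by positivity) h2
      rw [Real.log_pow, Real.log_mul (by norm_num) (by positivity), hlog4] at h3
      linarith
    have hlogp : Real.log p ≤ Real.log (1 + Real.log n) := Real.log_le_log (by positivity) hple
    have hlogp0 : 0 ≤ Real.log p := Real.log_nonneg hp1
    have hfin : (r : ℝ) ≤ 2 + 3 / 2 * Real.log (1 + Real.log n) := by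
      have hl2 : 0 < Real.log 2 := by linarith
      have h1 : (r : ℝ) * Real.log 2 ≤ (2 + 3 / 2 * Real.log (1 + Real.log n)) * Real.log 2 := by
        nlinarith
      exact le_of_mul_le_mul_right h1 hl2
    linarith

/-- the case of energy one -/
private theorem total_n_one {τ : ℝ} (hτ : 0 ≤ τ) (hT : Tst s t l (fun _ => τ)) {n : ℕ} (hn : 1 ≤ n) {F : V → ℝ}
    (hF : D s t F F = 1)
    (hm : ∑ z ∈ univ.filter (fun z : V × V => ¬ F z.1 - F z.2 = 0), l z ≤ n * τ) (hs : ∀ z : V × V, (F z.1 - F z.2) ^ 2 ≤ n) :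
    En l univ F ≤ 1300 * (1 + Real.log (1 + Real.log n)) ^ 2 * τ := by
  classical
  have hn' : (1 : ℝ) ≤ n := by exact_mod_cast hn
  have hlogn : 0 ≤ Real.log n := Real.log_nonneg hn'
  have hΛ : 0 ≤ Real.log (1 + Real.log n) := Real.log_nonneg (by linarith)
  set p := Nat.clog 4 n with hpdef
  have hnp : n ≤ 4 ^ p := Nat.le_pow_clog (by norm_num) n
  have hnp' : (n : ℝ) ≤ 4 ^ p := by exact_mod_cast hnp
  set A : Finset (V × V) := univ.filter (fun z : V × V => |F z.1 - F z.2| ≤ (2 : ℝ) ^ (-(p : ℤ))) with hA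
  have h24 : ((2 : ℝ) ^ p) ^ 2 = 4 ^ p := by rw [← pow_mul, mul_comm, pow_mul]; norm_num
  have hcov : (univ : Finset (V × V)) ⊆ A ∪ bnd F (-(p : ℤ)) p := by
    intro z _
    rw [Finset.mem_union, mem_bnd, hA, Finset.mem_filter]
    rcases le_or_gt (|F z.1 - F z.2|) ((2 : ℝ) ^ (-(p : ℤ))) with h | h
    · exact Or.inl ⟨Finset.mem_univ _, h⟩
    · refine Or.inr ⟨h, ?_⟩
      rw [zpow_natCast]
      refine abs_le_of_sq_le_sq ?_ (by positivity)
      rw [h24]
      exact (hs z).trans hnp'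
  have h1 := En_union_le hT.pos hcov F
  have hA1 : En l A F ≤ τ := by
    have e1 : En l A F = ∑ z ∈ A.filter (fun z : V × V => ¬ F z.1 - F z.2 = 0), l z * (F z.1 - F z.2) ^ 2 := by
      rw [En, Finset.sum_filter (s := A)]
      refine Finset.sum_congr rfl fun z _ => ?_
      by_cases h0 : F z.1 - F z.2 = 0
      · rw [if_neg (by simpa using h0), h0]; ring
      · rw [if_pos h0]
    rw [e1]
    have e2 : ∑ z ∈ A.filter (fun z : V × V => ¬ F z.1 - F z.2 = 0), l z * (F z.1 - F z.2) ^ 2 ≤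
        ∑ z ∈ A.filter (fun z : V × V => ¬ F z.1 - F z.2 = 0), l z * ((4 : ℝ) ^ p)⁻¹ := by
      refine Finset.sum_le_sum fun z hz => mul_le_mul_of_nonneg_left ?_ (hT.pos z)
      have hz1 := (Finset.mem_filter.mp (Finset.mem_filter.mp hz).1).2
      rw [← sq_abs]
      calc |F z.1 - F z.2| ^ 2 ≤ ((2 : ℝ) ^ (-(p : ℤ))) ^ 2 := pow_le_pow_left₀ (abs_nonneg _) hz1 2
        _ = _ := by rw [zpow_neg, zpow_natCast, inv_pow, h24]
    have e3 : ∑ z ∈ A.filter (fun z : V × V => ¬ F z.1 - F z.2 = 0), l z * ((4 : ℝ) ^ p)⁻¹ ≤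
        ∑ z ∈ univ.filter (fun z : V × V => ¬ F z.1 - F z.2 = 0), l z * ((4 : ℝ) ^ p)⁻¹ := by
      refine Finset.sum_le_sum_of_subset_of_nonneg ?_ fun z _ _ => mul_nonneg (hT.pos z) (by positivity)
      exact Finset.filter_subset_filter _ (Finset.subset_univ _)
    have e4 : (∑ z ∈ univ.filter (fun z : V × V => ¬ F z.1 - F z.2 = 0), l z) * ((4 : ℝ) ^ p)⁻¹ ≤ n * τ * ((4 : ℝ) ^ p)⁻¹ :=
      mul_le_mul_of_nonneg_right hm (by positivity)
    have e5 : n * τ * ((4 : ℝ) ^ p)⁻¹ ≤ τ := by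
      rw [← div_eq_mul_inv, div_le_iff₀ (by positivity)]
      nlinarith
    rw [Finset.sum_mul] at e4
    linarith
  set r := Nat.clog 2 (2 * p) with hrdef
  have hr : 2 * p ≤ 2 ^ r := Nat.le_pow_clog (by norm_num) _
  have h2 := pp_all hT r F hF.le (-(p : ℤ)) p (by push_cast; have : (2 * (p : ℤ)) ≤ 2 ^ r := by exact_mod_cast hr
                                                  linarith)
  rw [hF, mul_one] at h2
  have h3 := clog_bound hn
  rw [← hpdef, ← hrdef] at h3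
  have h4 : ((r : ℝ) + 1) ^ 2 ≤ 9 * (1 + Real.log (1 + Real.log n)) ^ 2 := by
    have : 0 ≤ (r : ℝ) + 1 := by positivity
    calc ((r : ℝ) + 1) ^ 2 ≤ (3 * (1 + Real.log (1 + Real.log n))) ^ 2 := pow_le_pow_left₀ this h3 2
      _ = _ := by ring
  have h5 : 144 * ((r : ℝ) + 1) ^ 2 * τ ≤ 1296 * (1 + Real.log (1 + Real.log n)) ^ 2 * τ := by
    refine mul_le_mul_of_nonneg_right ?_ hτ
    linarith
  have h6 : τ ≤ (1 + Real.log (1 + Real.log n)) ^ 2 * τ := by
    have : 1 ≤ (1 + Real.log (1 + Real.log n)) ^ 2 := by nlinarith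
    nlinarith
  have h7 : 0 ≤ (1 + Real.log (1 + Real.log n)) ^ 2 * τ := by positivity
  linarith

theorem total_n {τ : ℝ} (hτ : 0 ≤ τ) (hT : Tst s t l (fun _ => τ)) {n : ℕ} (hn : 1 ≤ n) {F : V → ℝ}
    (hm : ∑ z ∈ univ.filter (fun z : V × V => ¬ F z.1 - F z.2 = 0), l z ≤ n * τ) (hs : ∀ z : V × V, (F z.1 - F z.2) ^ 2 ≤ n * D s t F F) :
    En l univ F ≤ 1300 * (1 + Real.log (1 + Real.log n)) ^ 2 * τ * D s t F F := by
  have hd0 : 0 ≤ D s t F F := D_nonneg F
  rcases hd0.eq_or_lt with hd | hd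
  · rw [← hd, mul_zero]
    refine le_of_eq ?_
    rw [En]
    refine Finset.sum_eq_zero fun z _ => ?_
    have h1 := hs z
    rw [← hd, mul_zero] at h1
    have h2 : (F z.1 - F z.2) ^ 2 = 0 := le_antisymm h1 (sq_nonneg _)
    rw [h2, mul_zero]
  · set d := D s t F F with hddef
    set c := (√d)⁻¹ with hc
    have hsd : 0 < √d := Real.sqrt_pos.mpr hd
    have hc0 : 0 < c := inv_pos.mpr hsd
    have hcd : c ^ 2 * d = 1 := by
      rw [hc, inv_pow, Real.sq_sqrt hd.le, inv_mul_cancel₀ hd.ne']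
    have hF' : D s t (c • F) (c • F) = 1 := by
      rw [D_smul, D_smul', ← hddef, ← hcd]; ring
    have hm' : ∑ z ∈ univ.filter (fun z : V × V => ¬ (c • F) z.1 - (c • F) z.2 = 0), l z ≤ n * τ := by
      have : univ.filter (fun z : V × V => ¬ (c • F) z.1 - (c • F) z.2 = 0) = univ.filter (fun z : V × V => ¬ F z.1 - F z.2 = 0) := by
        refine Finset.filter_congr fun z _ => ?_
        simp only [Pi.smul_apply, smul_eq_mul, ← mul_sub, mul_eq_zero, hc0.ne', false_or]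
      rw [this]; exact hm
    have hs' : ∀ z : V × V, ((c • F) z.1 - (c • F) z.2) ^ 2 ≤ n := by
      intro z
      simp only [Pi.smul_apply, smul_eq_mul, ← mul_sub, mul_pow]
      calc c ^ 2 * (F z.1 - F z.2) ^ 2 ≤ c ^ 2 * (n * d) := mul_le_mul_of_nonneg_left (hs z) (by positivity)
        _ = n * (c ^ 2 * d) := by ring
        _ = n := by rw [hcd, mul_one]
    have h := total_n_one hτ hT hn hF' hm' hs'
    rw [En_smul] at h
    have h2 := mul_le_mul_of_nonneg_right h hd.le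
    calc En l univ F = c ^ 2 * En l univ F * d := by
          rw [mul_right_comm, hcd, one_mul]
      _ ≤ _ := h2

end Pool.Agent.H44C
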