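import Pool.Agent.H44C.TreeB

/-!
# H44C TreeD: the pairs separated by an edge

For `e : Bl N` let `ch e u = 1` if `e` is on the path from the root to `u`, i.e. `tr |e| u = e`, and `0` otherwise.

* `ch_diff`: for `e ≠ root`: `ch e u - ch e (pb u) = 1` if `u = e` and `0` otherwise (for `|u| > |e|` by `tr_par`; for `|u| ≤ |e|`: `tr |e| u = u`, and `|pb u| < |e|` so `tr |e| (pb u) = pb u ≠ e` (if `u = root` both terms are equal)).
* `path_sum`: `F u - F root = ∑ e, ch e u * (F e - F (pb e))` by induction on the length of `u` (the term `e = root` is `0`; `ch e u = ch e (pb u) + [u = e]`; for the root: `ch e root = 0` for `e ≠ root`).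
* `path_bound`: `F u - F v = ∑ e, (ch e u - ch e v) * (F e - F (pb e))` and `|ch e u - ch e v| ≤ 1`, so `(F u - F v) ^ 2 ≤ (∑_{e : F e ≠ F (pb e)} |F e - F (pb e)|) ^ 2 ≤ n * ∑ (F e - F (pb e)) ^ 2` (`sq_sum_le_card_mul_sum_sq`).
* `mass_bound`: if `F z.1 ≠ F z.2` there is an `e` with `F e ≠ F (pb e)` and `ch e z.1 ≠ ch e z.2`.  So the sum over these `z` is at most `∑_{e : F e ≠ F (pb e)} ∑ z, l z * (ch e z.1 - ch e z.2) ^ 2 = ∑_e En l univ (ch e)`.  `ch e` has the values `0, 1` only: `cl (ch e) = ch e`, `Cond` is void,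
  `D id pb (ch e) (ch e) = 1` by `ch_diff` (`e ≠ root` because `F e ≠ F (pb e)`), so `hT.test` (with `k = 0`) gives `En l univ (ch e) ≤ τ`.
-/

set_option autoImplicit false

open Finset

namespace Pool.Agent.H44C

open Classical in
/-- `1` if `e` is on the path from the root to `u` -/
noncomputable def ch {N : ℕ} (e u : Bl N) : ℝ := if tr e.1.1.length u.1 = e.1 then 1 else 0

theorem ch_eq {N : ℕ} (e u : Bl N) : ch e u = 0 ∨ ch e u = 1 := by
  unfold ch
  split_ifs
  · exact Or.inr rfl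
  · exact Or.inl rfl

theorem ch_diff {N : ℕ} {e : Bl N} (he : e ≠ pb e) (u : Bl N) : ch e u - ch e (pb u) = if u = e then 1 else 0 := by
  have hpb : ∀ w : Bl N, (pb w).1 = par w.1 := fun _ => rfl
  rcases lt_or_ge e.1.1.length u.1.1.length with h | h
  · have h1 : ¬ u = e := fun h2 => by rw [h2] at h; exact lt_irrefl _ h
    rw [if_neg h1]
    unfold ch
    rw [hpb, tr_par h, sub_self]
  · have h1 : (par u.1).1.length ≤ e.1.1.length := by
      rw [length_par]
      omega
    have h2 : ¬ par u.1 = e.1 := by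
      intro h3
      have h4 := length_par u.1
      rw [h3] at h4
      have h5 : u.1.1.length = 0 := by omega
      have h6 : par u.1 = u.1 := by
        apply Subtype.ext
        rw [show (par u.1).1 = u.1.1.tail from rfl, List.length_eq_zero_iff.1 h5]
        rfl
      apply he
      apply Subtype.ext
      rw [hpb, ← h3, h6, h6]
    unfold ch
    rw [hpb, tr_of_le h, tr_of_le h1, if_neg h2, sub_zero]
    by_cases h3 : u = e
    · rw [if_pos h3, if_pos (by rw [h3])]
    · rw [if_neg h3, if_neg fun h4 => h3 (Subtype.ext h4)]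

theorem step_sum {N : ℕ} (F : Bl N → ℝ) (u : Bl N) :
    F u - F (pb u) = ∑ e, (ch e u - ch e (pb u)) * (F e - F (pb e)) := by
  have h1 : ∀ e, (ch e u - ch e (pb u)) * (F e - F (pb e)) = if u = e then F e - F (pb e) else 0 := by
    intro e
    by_cases he : e = pb e
    · rw [← he, sub_self, mul_zero]
      split_ifs <;> rfl
    · rw [ch_diff he]
      split_ifs <;> simp
  rw [sum_congr rfl fun e _ => h1 e, sum_ite_eq univ u, if_pos (mem_univ _)]

theorem path_sum {N : ℕ} (F : Bl N → ℝ) (r : Bl N) (hr : r.1 = root) : ∀ (k : ℕ) (u : Bl N), u.1.1.length = k →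
    F u - F r = ∑ e, (ch e u - ch e r) * (F e - F (pb e)) := by
  intro k
  induction k with
  | zero =>
    intro u hu
    have h1 : u = r := by
      apply Subtype.ext
      rw [hr]
      apply Subtype.ext
      exact List.length_eq_zero_iff.1 hu
    rw [h1, sub_self, sum_eq_zero fun e _ => by rw [sub_self, zero_mul]]
  | succ k ih =>
    intro u hu
    have h1 := ih (pb u) (by rw [show (pb u).1 = par u.1 from rfl, length_par, hu]; rfl)
    have h2 := step_sum F u
    have h3 : F u - F r = (F u - F (pb u)) + (F (pb u) - F r) := by ring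
    rw [h3, h1, h2, ← sum_add_distrib]
    exact sum_congr rfl fun e _ => by ring

theorem pair_sum {N : ℕ} (F : Bl N → ℝ) (u v : Bl N) :
    F u - F v = ∑ e, (ch e u - ch e v) * (F e - F (pb e)) := by
  have h1 := path_sum F ⟨root, Nat.zero_le _⟩ rfl _ u rfl
  have h2 := path_sum F ⟨root, Nat.zero_le _⟩ rfl _ v rfl
  have h3 : F u - F v = (F u - F ⟨root, Nat.zero_le _⟩) - (F v - F ⟨root, Nat.zero_le _⟩) := by ring
  rw [h3, h1, h2, ← sum_sub_distrib]
  exact sum_congr rfl fun e _ => by ring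

theorem pair_sum' {N : ℕ} (F : Bl N → ℝ) (u v : Bl N) :
    F u - F v = ∑ e ∈ univ.filter (fun e : Bl N => ¬ F e - F (pb e) = 0), (ch e u - ch e v) * (F e - F (pb e)) := by
  rw [pair_sum, sum_filter]
  refine sum_congr rfl fun e _ => ?_
  split_ifs with h
  · rw [h, mul_zero]
  · rfl

theorem path_bound {N n : ℕ} {F : Bl N → ℝ} (hn : (univ.filter fun e : Bl N => ¬ F e - F (pb e) = 0).card ≤ n) (z : Bl N × Bl N) :
    (F z.1 - F z.2) ^ 2 ≤ n * D (id : Bl N → Bl N) pb F F := by
  rw [pair_sum' F z.1 z.2]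
  refine (sq_sum_le_card_mul_sum_sq (s := univ.filter fun e : Bl N => ¬ F e - F (pb e) = 0)
    (f := fun e => (ch e z.1 - ch e z.2) * (F e - F (pb e)))).trans ?_
  have h1 : ∑ e ∈ univ.filter (fun e : Bl N => ¬ F e - F (pb e) = 0), ((ch e z.1 - ch e z.2) * (F e - F (pb e))) ^ 2 ≤
      D (id : Bl N → Bl N) pb F F := by
    unfold D
    refine (sum_le_sum fun e _ => ?_).trans (sum_le_univ_sum_of_nonneg fun e => mul_self_nonneg (F (id e) - F (pb e)))
    rw [mul_pow, ← sq]
    have h2 : (ch e z.1 - ch e z.2) ^ 2 ≤ 1 := by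
      rcases ch_eq e z.1 with h | h <;> rcases ch_eq e z.2 with h' | h' <;> rw [h, h'] <;> norm_num
    exact mul_le_of_le_one_left (sq_nonneg _) h2
  have h3 : (0 : ℝ) ≤ ∑ e ∈ univ.filter (fun e : Bl N => ¬ F e - F (pb e) = 0), ((ch e z.1 - ch e z.2) * (F e - F (pb e))) ^ 2 :=
    sum_nonneg fun e _ => sq_nonneg _
  exact mul_le_mul (Nat.cast_le.2 hn) h1 h3 (Nat.cast_nonneg _)

theorem mass_bound {N n : ℕ} {τ : ℝ} (hτ : 0 ≤ τ) {l : Bl N × Bl N → ℝ} (hT : Tst (id : Bl N → Bl N) pb l (fun _ => τ)) {F : Bl N → ℝ}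
    (hn : (univ.filter fun e : Bl N => ¬ F e - F (pb e) = 0).card ≤ n) :
    ∑ z ∈ univ.filter (fun z : Bl N × Bl N => ¬ F z.1 - F z.2 = 0), l z ≤ n * τ := by
  have hE : ∀ e : Bl N, ¬ F e - F (pb e) = 0 → En l univ (ch e) ≤ τ := by
    intro e he
    have he' : e ≠ pb e := fun h => he (by rw [← h, sub_self])
    have hcl : cl (ch e) = ch e := by
      funext x
      unfold cl clip
      rcases ch_eq e x with h | h <;> rw [h] <;> norm_num
    have hD : D (id : Bl N → Bl N) pb (ch e) (ch e) = 1 := by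
      unfold D
      have h1 : ∀ u : Bl N, (ch e (id u) - ch e (pb u)) * (ch e (id u) - ch e (pb u)) = if u = e then 1 else 0 := by
        intro u
        rw [id, ch_diff he']
        split_ifs <;> norm_num
      rw [sum_congr rfl fun u _ => h1 u, sum_ite_eq' univ e, if_pos (mem_univ _)]
    have h2 := hT.test 0 (ch e) (fun x h0 h1 => by
      rcases ch_eq e x with h | h
      · rw [h] at h0
        exact absurd h0 (lt_irrefl _)
      · rw [h] at h1
        exact absurd h1 (lt_irrefl _)) (by rw [hcl, hD]; norm_num)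
    rw [hcl, hD, mul_one] at h2
    exact h2
  have h1 : ∀ z : Bl N × Bl N, ¬ F z.1 - F z.2 = 0 →
      1 ≤ ∑ e ∈ univ.filter (fun e : Bl N => ¬ F e - F (pb e) = 0), (ch e z.1 - ch e z.2) ^ 2 := by
    intro z hz
    obtain ⟨e, he, hne⟩ : ∃ e ∈ univ.filter (fun e : Bl N => ¬ F e - F (pb e) = 0), ¬ ch e z.1 - ch e z.2 = 0 := by
      by_contra hcon
      push Not at hcon
      apply hz
      rw [pair_sum']
      exact sum_eq_zero fun e he => by rw [hcon e he, zero_mul]
    have h2 : (ch e z.1 - ch e z.2) ^ 2 = 1 := by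
      rcases ch_eq e z.1 with h | h <;> rcases ch_eq e z.2 with h' | h' <;> rw [h, h'] at hne ⊢ <;>
        first | exact absurd (sub_self _) hne | norm_num
    rw [← h2]
    exact single_le_sum (f := fun e => (ch e z.1 - ch e z.2) ^ 2) (fun e _ => sq_nonneg _) he
  calc ∑ z ∈ univ.filter (fun z : Bl N × Bl N => ¬ F z.1 - F z.2 = 0), l z
      ≤ ∑ z ∈ univ.filter (fun z : Bl N × Bl N => ¬ F z.1 - F z.2 = 0),
          l z * ∑ e ∈ univ.filter (fun e : Bl N => ¬ F e - F (pb e) = 0), (ch e z.1 - ch e z.2) ^ 2 :=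
        sum_le_sum fun z hz => le_mul_of_one_le_right (hT.pos z) (h1 z (mem_filter.1 hz).2)
    _ ≤ ∑ z, l z * ∑ e ∈ univ.filter (fun e : Bl N => ¬ F e - F (pb e) = 0), (ch e z.1 - ch e z.2) ^ 2 :=
        sum_le_univ_sum_of_nonneg fun z => mul_nonneg (hT.pos z) (sum_nonneg fun e _ => sq_nonneg _)
    _ = ∑ e ∈ univ.filter (fun e : Bl N => ¬ F e - F (pb e) = 0), En l univ (ch e) := by
        unfold En
        rw [sum_comm]
        exact sum_congr rfl fun z _ => by rw [mul_sum]
    _ ≤ ∑ _e ∈ univ.filter (fun e : Bl N => ¬ F e - F (pb e) = 0), τ := sum_le_sum fun e he => hE e (mem_filter.1 he).2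
    _ = (univ.filter fun e : Bl N => ¬ F e - F (pb e) = 0).card * τ := by rw [sum_const, nsmul_eq_mul]
    _ ≤ n * τ := mul_le_mul_of_nonneg_right (Nat.cast_le.2 hn) hτ

end Pool.Agent.H44C
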