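import Pool.Agent.H44C.TreeC
import Pool.Agent.H44C.TreeD
import Pool.Agent.H44C.Total
import Pool.Agent.H44C.TotalN

/-!
# H44C Final: the theorem for the tree
-/

set_option autoImplicit false

open Finset MeasureTheory

namespace Pool.Agent.H44C

theorem cap_nonneg' {G : W → ℝ} (hG : G ∈ FF) : 0 ≤ cap G := by
  obtain ⟨N, hN⟩ := exists_ball hG
  rw [cap, energy_eq hN (clipW_tr hN), rs_clip]
  exact D_clip_nonneg _

/-- the test condition on the tree gives the test condition on the balls -/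
theorem tst_ball {μ : Measure (Tbar × Tbar)} [IsProbabilityMeasure μ] {T : ℤ → ℝ} (h0 : ∀ k, 0 ≤ T k) (ha : Antitone T)
    (h : ∀ (k : ℤ) (G : W → ℝ), G ∈ FF → IsCondenser G → cap G ≤ (4 : ℝ) ^ (-k) → pairEnergy μ (clipW G) ≤ T k * cap G) (N : ℕ) :
    Tst (id : Bl N → Bl N) pb (wt μ N) T := by
  refine ⟨wt_nonneg μ N, h0, ha, ?_⟩
  intro k G hc hk
  have hG : ∀ w, lf G w = lf G (tr N w) := lf_tr G
  have hF : lf G ∈ FF := mem_FF_of_ball hG
  have hcond : IsCondenser (lf G) := by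
    intro w h1 h2
    refine lf_harm w fun hw => hc _ ?_ ?_
    · have e : tb N w = ⟨w, hw⟩ := Subtype.ext (tr_of_le hw)
      rw [← e]
      exact h1
    · have e : tb N w = ⟨w, hw⟩ := Subtype.ext (tr_of_le hw)
      rw [← e]
      exact h2
  have hcap : cap (lf G) = D (id : Bl N → Bl N) pb G (cl G) := by
    rw [cap, energy_eq hG (clipW_tr hG), rs_clip, rs_lf]
  have h1 := h k (lf G) hF hcond (by rw [hcap]; exact hk)
  rw [hcap, pairEnergy_eq μ (clipW_tr hG), rs_clip, rs_lf] at h1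
  exact h1

theorem easy_direction {μ : Measure (Tbar × Tbar)} {K : ℝ} (hK : 0 ≤ K) (h : ∀ F ∈ FF, pairEnergy μ F ≤ K * energy F F) {G : W → ℝ} (hG : G ∈ FF) :
    pairEnergy μ (clipW G) ≤ K * cap G := by
  obtain ⟨N, hN⟩ := exists_ball hG
  refine (h (clipW G) (mem_FF_of_ball (clipW_tr hN))).trans (mul_le_mul_of_nonneg_left ?_ hK)
  rw [cap, energy_eq hN (clipW_tr hN), energy_eq (clipW_tr hN) (clipW_tr hN), rs_clip]
  exact D_cl_le _

theorem loglog {μ : Measure (Tbar × Tbar)} [IsProbabilityMeasure μ] {τ : ℝ} (hτ : 0 ≤ τ)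
    (h : ∀ G ∈ FF, IsCondenser G → pairEnergy μ (clipW G) ≤ τ * cap G / (1 + Real.log (max 1 (Real.log (1 / cap G)))) ^ 2) {F : W → ℝ} (hF : F ∈ FF) :
    pairEnergy μ F ≤ (1 + 200000 * τ) * energy F F := by
  obtain ⟨N, hN⟩ := exists_ball hF
  have hT : Tst (id : Bl N → Bl N) pb (wt μ N) (rate τ) := by
    refine tst_ball (rate_nonneg hτ) (rate_anti hτ) ?_ N
    intro k G hG hc hk
    refine (h G hG hc).trans ?_
    have h0 := cap_nonneg' hG
    rcases h0.eq_or_lt with h00 | hpos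
    · rw [← h00]
      simp
    · have hlog : (k : ℝ) * Real.log 4 ≤ Real.log (1 / cap G) := by
        rw [← Real.log_zpow]
        refine Real.log_le_log (zpow_pos (by norm_num) _) ?_
        rw [le_div_iff₀ hpos]
        calc (4 : ℝ) ^ k * cap G ≤ (4 : ℝ) ^ k * (4 : ℝ) ^ (-k) := mul_le_mul_of_nonneg_left hk (zpow_nonneg (by norm_num) _)
          _ = 1 := by rw [← zpow_add₀ (by norm_num), add_neg_cancel, zpow_zero]
      have h1 : Real.log (max 1 ((k : ℝ) * Real.log 4)) ≤ Real.log (max 1 (Real.log (1 / cap G))) :=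
        Real.log_le_log (lt_of_lt_of_le one_pos (le_max_left _ _)) (max_le_max_left _ hlog)
      have h2 : 0 ≤ Real.log (max 1 ((k : ℝ) * Real.log 4)) := Real.log_nonneg (le_max_left _ _)
      have h3 : (1 + Real.log (max 1 ((k : ℝ) * Real.log 4))) ^ 2 ≤ (1 + Real.log (max 1 (Real.log (1 / cap G)))) ^ 2 :=
        pow_le_pow_left₀ (by linarith) (by linarith) 2
      have h4 : 0 < (1 + Real.log (max 1 ((k : ℝ) * Real.log 4))) ^ 2 := by positivity
      rw [rate, div_mul_eq_mul_div]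
      exact div_le_div_of_nonneg_left (mul_nonneg hτ h0) h4 h3
  have h5 := total hτ hT (wt_sum μ N).le (rs N F)
  rw [pairEnergy_eq μ hN, energy_eq hN hN]
  exact h5

theorem edges {μ : Measure (Tbar × Tbar)} [IsProbabilityMeasure μ] {τ : ℝ} (hτ : 0 ≤ τ)
    (h : ∀ G ∈ FF, IsCondenser G → pairEnergy μ (clipW G) ≤ τ * cap G) {F : W → ℝ} (hF : F ∈ FF) {n : ℕ} (hn : 1 ≤ n)
    (hFn : {w | F w ≠ F (par w)}.ncard ≤ n) :
    pairEnergy μ F ≤ 1300 * (1 + Real.log (1 + Real.log n)) ^ 2 * τ * energy F F := by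
  obtain ⟨N, hN⟩ := exists_ball hF
  have hT : Tst (id : Bl N → Bl N) pb (wt μ N) (fun _ => τ) :=
    tst_ball (fun _ => hτ) (fun _ _ _ => le_rfl) (fun k G hG hc _ => h G hG hc) N
  have hcard : (univ.filter fun e : Bl N => ¬ rs N F e - rs N F (pb e) = 0).card ≤ n := by
    refine le_trans ?_ hFn
    rw [← Set.ncard_coe_finset]
    refine Set.ncard_le_ncard_of_injOn (fun e : Bl N => e.1) ?_ ?_ hF
    · intro e he
      have he' := (Finset.mem_filter.mp (Finset.mem_coe.mp he)).2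
      intro heq
      exact he' (sub_eq_zero.mpr heq)
    · intro a _ b _ hab
      exact Subtype.ext hab
  have h5 := total_n hτ hT hn (F := rs N F) (mass_bound hτ hT hcard) (fun z => path_bound hcard z)
  rw [pairEnergy_eq μ hN, energy_eq hN hN]
  exact h5

end Pool.Agent.H44C
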