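import Pool.Agent.H44C.DisB
import Pool.Agent.H44C.Bands

/-!
# H44C Single: the pairs of one scale, and the pairs of the lower scales

* `low_pairs`: `band_sum` with `J = 2` (`dis_harm`, `D G G ≤ D F F ≤ 1` by `dis_split`, `D_nonneg`): for `z ∈ S` let `r = 2 ^ k`, `a = ⌊min (F z.1) (F z.2) / r⌋`: `a r ≤ F z.1, F z.2` and both are `≤ (a + 1) r + r`; by `h.mem` (with `m = a` and `m = a + 2`) the same for `G`.
* `single_scale`: let `k = i - 2`, `G` the discretisation (`exists_dis`), `r = 2 ^ k`; for `z` in `bnd F i (i + 1)`: `4 r < |ΔF| ≤ 8 r`, `|ΔF - ΔG| ≤ 2 r ≤ |ΔF| / 2` (`KK_diff`), so `(ΔF) ^ 2 ≤ 4 (ΔG) ^ 2`; `band_sum` with `J = 9` (`a = ⌊min / r⌋`,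
  both `F` values in `[a r, (a + 9) r]`, `h.mem` with `m = a`, `m = a + 9`) gives `En l S F ≤ 4 * 9 * T k * D G G`, `D G G ≤ D F F` (`dis_split`).
-/

set_option autoImplicit false
set_option linter.unusedSectionVars false
set_option linter.unusedVariables false

open Finset

namespace Pool.Agent.H44C

variable {V E : Type} [Fintype V] [DecidableEq V] [Fintype E] {s t : E → V} {l : V × V → ℝ} {T : ℤ → ℝ}

private theorem Single_band {F G : V → ℝ} {k : ℤ} (h : Dis s t F k G) {z : V × V} {J : ℕ}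
    (hz : |F z.1 - F z.2| ≤ (J : ℝ) * (2 : ℝ) ^ k) :
    ∃ a : ℤ, (a * (2 : ℝ) ^ k ≤ G z.1 ∧ G z.1 ≤ (a + (J + 1 : ℕ)) * (2 : ℝ) ^ k) ∧
      (a * (2 : ℝ) ^ k ≤ G z.2 ∧ G z.2 ≤ (a + (J + 1 : ℕ)) * (2 : ℝ) ^ k) := by
  have hr : (0 : ℝ) < (2 : ℝ) ^ k := zpow_pos two_pos k
  obtain ⟨r, hrr⟩ : ∃ r : ℝ, r = (2 : ℝ) ^ k := ⟨_, rfl⟩
  rw [← hrr] at hz hr
  obtain ⟨a, ha⟩ : ∃ a : ℤ, a = ⌊min (F z.1) (F z.2) / r⌋ := ⟨_, rfl⟩
  have h1 : (a : ℝ) * r ≤ min (F z.1) (F z.2) := by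
    have h2 : (a : ℝ) ≤ min (F z.1) (F z.2) / r := by
      rw [ha]
      exact Int.floor_le _
    exact (le_div_iff₀ hr).1 h2
  have h2 : min (F z.1) (F z.2) < ((a : ℝ) + 1) * r := by
    have h3 : min (F z.1) (F z.2) / r < (a : ℝ) + 1 := by
      rw [ha]
      exact Int.lt_floor_add_one _
    exact (div_lt_iff₀ hr).1 h3
  obtain ⟨h3, h4⟩ := abs_le.1 hz
  have h5 : F z.1 ≤ ((a : ℝ) + ((J + 1 : ℕ) : ℝ)) * r ∧ F z.2 ≤ ((a : ℝ) + ((J + 1 : ℕ) : ℝ)) * r := by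
    push_cast
    rcases min_cases (F z.1) (F z.2) with ⟨h6, h7⟩ | ⟨h6, h7⟩
    · rw [h6] at h2
      constructor <;> nlinarith
    · rw [h6] at h2
      constructor <;> nlinarith
  have h6 : (a : ℝ) * r ≤ F z.1 ∧ (a : ℝ) * r ≤ F z.2 :=
    ⟨h1.trans (min_le_left _ _), h1.trans (min_le_right _ _)⟩
  have hc : (((a + (J + 1 : ℕ) : ℤ)) : ℝ) = (a : ℝ) + ((J + 1 : ℕ) : ℝ) := by
    push_cast
    ring
  have m1 := (h.mem z.1 a).2
  have m2 := (h.mem z.2 a).2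
  have m3 := (h.mem z.1 (a + (J + 1 : ℕ))).1
  have m4 := (h.mem z.2 (a + (J + 1 : ℕ))).1
  rw [hc, ← hrr] at m3 m4
  rw [← hrr] at m1 m2
  rw [← hrr]
  exact ⟨a, ⟨m1 h6.1, m3 h5.1⟩, ⟨m2 h6.2, m4 h5.2⟩⟩

private theorem Single_le {F G : V → ℝ} {k : ℤ} (h : Dis s t F k G) : D s t G G ≤ D s t F F := by
  have h1 := dis_split h
  have h2 := D_nonneg (s := s) (t := t) (F - G)
  linarith

theorem low_pairs (hT : Tst s t l T) {F G : V → ℝ} {k : ℤ} (h : Dis s t F k G) (hF : D s t F F ≤ 1) {S : Finset (V × V)}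
    (hS : ∀ z ∈ S, |F z.1 - F z.2| ≤ (2 : ℝ) ^ k) : En l S G ≤ 2 * T k * D s t G G := by
  have h1 := band_sum (J := 2) hT (dis_harm h) ((Single_le h).trans hF) (S := S) (fun z hz => by
    have h2 : |F z.1 - F z.2| ≤ ((1 : ℕ) : ℝ) * (2 : ℝ) ^ k := by
      rw [Nat.cast_one, one_mul]
      exact hS z hz
    exact Single_band h h2)
  have h2 : ((2 : ℕ) : ℝ) = 2 := by norm_num
  rw [h2] at h1
  exact h1

theorem single_scale (hT : Tst s t l T) {F : V → ℝ} (hF : D s t F F ≤ 1) (i : ℤ) :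
    En l (bnd F i (i + 1)) F ≤ 36 * T (i - 2) * D s t F F := by
  obtain ⟨G, hG⟩ := exists_dis s t F (i - 2)
  have hr : (0 : ℝ) < (2 : ℝ) ^ (i - 2) := zpow_pos two_pos _
  have e1 : (2 : ℝ) ^ i = 4 * (2 : ℝ) ^ (i - 2) := by
    have h1 : i = 2 + (i - 2) := by ring
    conv_lhs => rw [h1]
    rw [zpow_add₀ two_ne_zero]
    norm_num
  have e2 : (2 : ℝ) ^ (i + 1) = 8 * (2 : ℝ) ^ (i - 2) := by
    have h1 : i + 1 = 3 + (i - 2) := by ring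
    rw [h1, zpow_add₀ two_ne_zero]
    norm_num
  have e3 : (2 : ℝ) ^ (i - 2 + 1) = 2 * (2 : ℝ) ^ (i - 2) := by
    rw [zpow_add₀ two_ne_zero, zpow_one]
    ring
  have h1 : En l (bnd F i (i + 1)) F ≤ 4 * En l (bnd F i (i + 1)) G := by
    refine En_le_of hT.pos fun z hz => ?_
    rw [mem_bnd, e1, e2] at hz
    have h2 := KK_diff hG.mem z.1 z.2
    rw [e3] at h2
    obtain ⟨h3, h4⟩ := abs_le.1 h2
    rcases abs_cases (F z.1 - F z.2) with ⟨h5, h6⟩ | ⟨h5, h6⟩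
    · rw [h5] at hz
      nlinarith [hz.1, hz.2]
    · rw [h5] at hz
      nlinarith [hz.1, hz.2]
  have h2 := band_sum (J := 9) hT (dis_harm hG) ((Single_le hG).trans hF) (S := bnd F i (i + 1)) (fun z hz => by
    rw [mem_bnd, e2] at hz
    have h3 : |F z.1 - F z.2| ≤ ((8 : ℕ) : ℝ) * (2 : ℝ) ^ (i - 2) := by
      have h4 : ((8 : ℕ) : ℝ) = 8 := by norm_num
      rw [h4]
      exact hz.2
    exact Single_band hG h3)
  have h3 : ((9 : ℕ) : ℝ) = 9 := by norm_num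
  rw [h3] at h2
  have h4 : T (i - 2) * D s t G G ≤ T (i - 2) * D s t F F :=
    mul_le_mul_of_nonneg_left (Single_le hG) (hT.nonneg _)
  nlinarith

end Pool.Agent.H44C
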