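import Pool.Agent.H44C.Single

/-!
# H44C StepA: the lower, the middle and the upper pairs

`F`, its discretisation `G` at the scale `2 ^ k`, `B = F - G`; `|B x| ≤ 2 ^ k` (`KK_close`), `|ΔF - ΔG| ≤ 2 ^ (k + 1)` (`KK_diff`).

* `step_low`: let `S = bnd F p k`, `A = En l S F`, `ε = (1/2) ^ c`.  For `z ∈ S`: `|ΔF| ≤ |ΔG| + |ΔB|`, and `|ΔB| ≤ |ΔB|·1_{z ∈ bnd B (p - c) (k + 1)} + ε |ΔF|`: either `|ΔB| > 2 ^ (p - c)` and then `z ∈ bnd B (p - c) (k + 1)` as `|ΔB| ≤ 2 ^ (k + 1)`,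
  or `|ΔB| ≤ 2 ^ (p - c) = ε 2 ^ p ≤ ε |ΔF|`.  Hence (`En_minkowski`/`En_triangle` twice, with the indicator function as one of the functions) `√A ≤ √(En l S G) + √(En l (bnd B ..) B) + ε √A`; `En l S G ≤ 2 * T k * D G G` (`low_pairs`).  So `(1 - ε) √A ≤ √(2 T k D G G) + √a`; square.
* `step_up`: for `z ∈ bnd F m q`, `ε = (1/2) ^ (c - 1)` `(≤ 1/2)`: `|ΔF - ΔG| ≤ 2 ^ (k + 1) = ε 2 ^ m ≤ ε |ΔF|` (`k = m - c`), so `(1 - ε) |ΔF| ≤ |ΔG| ≤ (1 + ε) |ΔF| ≤ 2 |ΔF|`, `2 ^ (m - 1) < |ΔG| ≤ 2 ^ (q + 1)` and `(ΔF) ^ 2 ≤ (1 - ε)⁻¹ ^ 2 (ΔG) ^ 2` (`En_le_of`, `En_mono`).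
* `step_mid`: induction on `n` (`m = k + n`): `bnd_split` at `k + n`, `En_union_le`, `single_scale` at `i = k + n`, `T (k + n - 2) ≤ T (k - 2)` (`hT.anti`), `bnd_empty` for `n = 0`.
-/

set_option autoImplicit false
set_option linter.unusedSectionVars false
set_option linter.unusedVariables false

open Finset

namespace Pool.Agent.H44C

variable {V E : Type} [Fintype V] [DecidableEq V] [Fintype E] {s t : E → V} {l : V × V → ℝ} {T : ℤ → ℝ}

theorem step_low (hT : Tst s t l T) {F G : V → ℝ} {k p : ℤ} (h : Dis s t F k G) (hF : D s t F F ≤ 1) {c : ℕ} (hc : 1 ≤ c) {a : ℝ}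
    (hB : En l (bnd (F - G) (p - c) (k + 1)) (F - G) ≤ a) :
    En l (bnd F p k) F ≤ ((1 - (1 / 2 : ℝ) ^ c)⁻¹) ^ 2 * (√(2 * T k * D s t G G) + √a) ^ 2 := by
  classical
  have hl := hT.pos
  set S := bnd F p k with hS
  set A := En l S F with hA
  set ε : ℝ := (1 / 2 : ℝ) ^ c with hε
  have hε0 : 0 < ε := by positivity
  have hε1 : ε ≤ 1 / 2 := by
    have := pow_le_pow_of_le_one (by norm_num : (0 : ℝ) ≤ 1 / 2) (by norm_num : (1 / 2 : ℝ) ≤ 1) hc
    rwa [pow_one] at this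
  have hA0 : 0 ≤ A := En_nonneg hl _ _
  -- first triangle inequality
  have t1 : √A ≤ √(En l S G) + √(En l S (F - G)) := by
    refine En_triangle hl fun z _ => ?_
    have e : F z.1 - F z.2 = (G z.1 - G z.2) + ((F - G) z.1 - (F - G) z.2) := by
      simp only [Pi.sub_apply]
      ring
    rw [e]
    exact abs_add_le _ _
  -- the pairs of the lower scales
  have t2 : En l S G ≤ 2 * T k * D s t G G := low_pairs hT h hF fun z hz => (mem_bnd.1 hz).2
  -- second triangle inequality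
  have t3 : √(En l S (F - G)) ≤
      √(∑ z ∈ S, l z * (if z ∈ bnd (F - G) (p - c) (k + 1) then (F - G) z.1 - (F - G) z.2 else 0) ^ 2) +
        √(∑ z ∈ S, l z * (ε * (F z.1 - F z.2)) ^ 2) := by
    refine En_minkowski (h := fun z => (F - G) z.1 - (F - G) z.2)
      (f := fun z => if z ∈ bnd (F - G) (p - c) (k + 1) then (F - G) z.1 - (F - G) z.2 else 0)
      (g := fun z => ε * (F z.1 - F z.2)) hl fun z hz => ?_
    have hz1 := mem_bnd.1 hz
    have hd : |(F - G) z.1 - (F - G) z.2| ≤ (2 : ℝ) ^ (k + 1) := by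
      have := KK_diff h.mem z.1 z.2
      have e : (F - G) z.1 - (F - G) z.2 = (F z.1 - F z.2) - (G z.1 - G z.2) := by
        simp only [Pi.sub_apply]
        ring
      rwa [e]
    have ha0 : 0 ≤ |ε * (F z.1 - F z.2)| := abs_nonneg _
    by_cases hz2 : z ∈ bnd (F - G) (p - c) (k + 1)
    · simp only [hz2, if_true]
      linarith
    · simp only [hz2, if_false, abs_zero, zero_add]
      have h3 : |(F - G) z.1 - (F - G) z.2| ≤ (2 : ℝ) ^ (p - (c : ℤ)) := by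
        by_contra hcon
        exact hz2 (mem_bnd.2 ⟨lt_of_not_ge hcon, hd⟩)
      have e2 : (2 : ℝ) ^ (p - (c : ℤ)) = ε * (2 : ℝ) ^ p := by
        rw [zpow_sub₀ (two_ne_zero), hε, zpow_natCast, one_div, inv_pow]
        field_simp
      rw [abs_mul, abs_of_pos hε0]
      rw [e2] at h3
      have := mul_le_mul_of_nonneg_left hz1.1.le hε0.le
      linarith
  have t4 : ∑ z ∈ S, l z * (if z ∈ bnd (F - G) (p - c) (k + 1) then (F - G) z.1 - (F - G) z.2 else 0) ^ 2 ≤ a := by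
    refine le_trans ?_ hB
    have e : ∀ z ∈ S, l z * (if z ∈ bnd (F - G) (p - c) (k + 1) then (F - G) z.1 - (F - G) z.2 else 0) ^ 2
        = if z ∈ bnd (F - G) (p - c) (k + 1) then l z * ((F - G) z.1 - (F - G) z.2) ^ 2 else 0 := by
      intro z _
      split_ifs
      · rfl
      · rw [zero_pow two_ne_zero, mul_zero]
    rw [Finset.sum_congr rfl e, ← Finset.sum_filter]
    refine Finset.sum_le_sum_of_subset_of_nonneg (fun z hz => (Finset.mem_filter.1 hz).2) fun z _ _ => mul_nonneg (hl z) (sq_nonneg _)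
  have t5 : ∑ z ∈ S, l z * (ε * (F z.1 - F z.2)) ^ 2 = ε ^ 2 * A := by
    rw [hA, En, Finset.mul_sum]
    exact Finset.sum_congr rfl fun z _ => by ring
  have t6 : √(ε ^ 2 * A) = ε * √A := by
    rw [Real.sqrt_mul (sq_nonneg ε), Real.sqrt_sq hε0.le]
  have t7 : √A ≤ √(2 * T k * D s t G G) + √a + ε * √A := by
    have u1 := Real.sqrt_le_sqrt t2
    have u2 := Real.sqrt_le_sqrt t4
    rw [t5, t6] at t3
    linarith
  set R := √(2 * T k * D s t G G) + √a with hR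
  have hR0 : 0 ≤ R := add_nonneg (Real.sqrt_nonneg _) (Real.sqrt_nonneg _)
  have hpos : 0 < 1 - ε := by linarith
  have t8 : √A ≤ (1 - ε)⁻¹ * R := by
    rw [inv_mul_eq_div, le_div_iff₀ hpos]
    linarith
  have t9 : A = √A ^ 2 := (Real.sq_sqrt hA0).symm
  rw [t9, ← mul_pow]
  exact pow_le_pow_left₀ (Real.sqrt_nonneg _) t8 2

theorem step_up (hl : ∀ z, 0 ≤ l z) {F G : V → ℝ} {k m q : ℤ} (h : Dis s t F k G) {c : ℕ} (hc : 2 ≤ c) (hk : k = m - c) :
    En l (bnd F m q) F ≤ ((1 - (1 / 2 : ℝ) ^ (c - 1))⁻¹) ^ 2 * En l (bnd G (m - 1) (q + 1)) G := by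
  obtain ⟨d, rfl⟩ : ∃ d : ℕ, c = d + 2 := ⟨c - 2, by omega⟩
  have hcd : d + 2 - 1 = d + 1 := by omega
  rw [hcd]
  set ε : ℝ := (1 / 2 : ℝ) ^ (d + 1) with hε
  have hε0 : 0 < ε := by positivity
  have hε1 : ε ≤ 1 / 2 := by
    have := pow_le_pow_of_le_one (by norm_num : (0 : ℝ) ≤ 1 / 2) (by norm_num : (1 / 2 : ℝ) ≤ 1) (by omega : 1 ≤ d + 1)
    rwa [pow_one] at this
  have hpos : 0 < 1 - ε := by linarith
  have ek : (2 : ℝ) ^ (k + 1) = ε * (2 : ℝ) ^ m := by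
    have e1 : k + 1 = m - ((d + 1 : ℕ) : ℤ) := by
      rw [hk]
      push_cast
      ring
    rw [e1, zpow_sub₀ (two_ne_zero), hε, zpow_natCast, one_div, inv_pow]
    field_simp
  have key : ∀ z ∈ bnd F m q, z ∈ bnd G (m - 1) (q + 1) ∧ (1 - ε) * |F z.1 - F z.2| ≤ |G z.1 - G z.2| := by
    intro z hz
    obtain ⟨z1, z2⟩ := mem_bnd.1 hz
    have hd := KK_diff h.mem z.1 z.2
    rw [ek] at hd
    have hm0 : (0 : ℝ) < (2 : ℝ) ^ m := by positivity
    have a1 : |F z.1 - F z.2| ≤ |G z.1 - G z.2| + |(F z.1 - F z.2) - (G z.1 - G z.2)| := by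
      have := abs_add_le (G z.1 - G z.2) ((F z.1 - F z.2) - (G z.1 - G z.2))
      rwa [add_sub_cancel] at this
    have a2 : |G z.1 - G z.2| ≤ |F z.1 - F z.2| + |(F z.1 - F z.2) - (G z.1 - G z.2)| := by
      have := abs_sub (F z.1 - F z.2) ((F z.1 - F z.2) - (G z.1 - G z.2))
      rwa [sub_sub_cancel] at this
    have a3 : ε * (2 : ℝ) ^ m ≤ ε * |F z.1 - F z.2| := mul_le_mul_of_nonneg_left z1.le hε0.le
    have a4 : ε * (2 : ℝ) ^ m ≤ (1 / 2) * (2 : ℝ) ^ m := mul_le_mul_of_nonneg_right hε1 hm0.le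
    have e3 : (2 : ℝ) ^ (m - 1) = (1 / 2) * (2 : ℝ) ^ m := by
      rw [zpow_sub_one₀ (two_ne_zero)]
      ring
    have e4 : (2 : ℝ) ^ (q + 1) = 2 * (2 : ℝ) ^ q := by
      rw [zpow_add_one₀ (two_ne_zero)]
      ring
    refine ⟨mem_bnd.2 ⟨?_, ?_⟩, by linarith⟩
    · rw [e3]
      linarith
    · rw [e4]
      linarith
  have k1 : En l (bnd F m q) F ≤ ((1 - ε)⁻¹) ^ 2 * En l (bnd F m q) G := by
    refine En_le_of hl fun z hz => ?_
    have h1 := (key z hz).2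
    have h2 : |F z.1 - F z.2| ≤ (1 - ε)⁻¹ * |G z.1 - G z.2| := by
      rw [inv_mul_eq_div, le_div_iff₀ hpos]
      linarith
    have h3 := pow_le_pow_left₀ (abs_nonneg _) h2 2
    rwa [mul_pow, sq_abs, sq_abs] at h3
  refine k1.trans (mul_le_mul_of_nonneg_left (En_mono hl (fun z hz => (key z hz).1) G) (sq_nonneg _))

theorem step_mid (hT : Tst s t l T) {F : V → ℝ} (hF : D s t F F ≤ 1) (k : ℤ) (n : ℕ) :
    En l (bnd F k (k + n)) F ≤ 36 * n * T (k - 2) * D s t F F := by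
  induction n with
  | zero =>
    rw [bnd_empty (by simp)]
    simp [En]
  | succ n ih =>
    have h1 : bnd F k (k + ((n + 1 : ℕ) : ℤ)) ⊆ bnd F k (k + n) ∪ bnd F (k + n) (k + n + 1) := by
      have := bnd_split F k (k + n) (k + ((n + 1 : ℕ) : ℤ))
      have e : k + ((n + 1 : ℕ) : ℤ) = k + n + 1 := by
        push_cast
        ring
      rw [e] at this ⊢
      exact this
    have h2 := En_union_le hT.pos h1 F
    have h3 := single_scale hT hF (k + n)
    have h4 : T (k + n - 2) ≤ T (k - 2) := hT.anti (by linarith [(Int.natCast_nonneg n : (0 : ℤ) ≤ (n : ℤ))])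
    have h5 : 36 * T (k + n - 2) * D s t F F ≤ 36 * T (k - 2) * D s t F F :=
      mul_le_mul_of_nonneg_right (by linarith) (D_nonneg F)
    push_cast at *
    linarith

end Pool.Agent.H44C
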