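import Pool.Agent.H44C.StepA

/-!
# H44C StepB: the induction

`PP n θ σ`: see Defs.

* `pp_zero`: `bnd F p q ⊆ bnd F p (p + 4)`, `step_mid` with `n = 4`: `36 * 4 = 144`.
* `pp_step`: let `N = 2 ^ r + 3`, `c = r + 4`, given `PP N θ σ`.  Let `F` with `D F F ≤ 1`, `q ≤ p + (2 ^ (r + 1) + 3)`, `m = p + N - 1`, `k = m - c`, `G` a discretisation of `F` at the scale `2 ^ k`, `B = F - G`, `t' = T (p - c - σ)`.
  `D B B + D G G ≤ D F F` (`dis_split`), so both are `≤ 1`.  `bnd F p q ⊆ bnd F p k ∪ bnd F k m ∪ bnd F m q` (`bnd_split`; true also if `k < p`).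
  (L) `bnd B (p - c) (k + 1)` has the length `k + 1 - p + c = N`, so `En l (bnd B (p - c) (k + 1)) B ≤ θ t' D B B =: a`, and `step_low` gives `En l (bnd F p k) F ≤ κ' (√(2 T k D G G) + √a) ^ 2`, with `κ' = (1 - (1/2) ^ c)⁻¹ ^ 2 ≤ κ := (1 - (1/2) ^ (c - 1))⁻¹ ^ 2`;
  `T k ≤ t'` if `p - c - σ ≤ k`, which holds as `k = p + 2 ^ r + 2 - c ≥ p - c`.  `(√(2 t' x) + √(θ t' y)) ^ 2 = t' (2 x + θ y + 2 √(2 θ) √(x y)) ≤ t' (2 x + θ y + √(2 θ) (x + y))` for `x = D G G`, `y = D B B`.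
  (M) `step_mid` with `n = c`: `36 c T (k - 2) D F F` and `T (k - 2) ≤ t'` (`p - c - σ ≤ k - 2`: `k - 2 = p + 2 ^ r - c ≥ p - c`).
  (U) `step_up`: `En l (bnd F m q) F ≤ κ En l (bnd G (m - 1) (q + 1)) G`, length `q + 1 - (m - 1) ≤ p + 2 ^ (r + 1) + 3 + 2 - (p + 2 ^ r + 2) = 2 ^ r + 3 = N`, so `≤ κ θ T (m - 1 - σ) D G G ≤ κ θ t' x`.
  Sum: `κ t' (2 x + θ y + √(2 θ) (x + y) + θ x) + 36 c t' D F F ≤ (κ (θ + √(2 θ) + 2) + 36 c) t' (x + y)` resp. `D F F`, `x + y ≤ D F F`, `t' = T (p - (σ + r + 4))`.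
* `pp_mono`: `θ` and `σ` may be increased (`T` is antitone and nonnegative, `D F F ≥ 0`).
* `theta_ineq`: with `θ = 144 (r + 1) ^ 2`: `√(2 θ) = √288 (r + 1) ≤ 17 (r + 1)` (`Real.sqrt_le_left`.. `(17 (r + 1)) ^ 2 = 289 (r + 1) ^ 2`); `x = (1/2) ^ (r + 3) ≤ 1/8`, `(1 - x)⁻¹ ^ 2 ≤ 1 + 5/2 x` (multiply out: `1 ≤ (1 + 5/2 x) (1 - x) ^ 2` for `0 ≤ x ≤ 1/8`);
  `(r + 1) ^ 2 ≤ 9/4 * 2 ^ r` (induction, small cases first), so `5/2 x * 144 (r + 1) ^ 2 ≤ 5/2 * 1/8 * 9/4 * 144 = 101.25`, `κ ≤ 64/49 ≤ 1.31`, and `101.25 + 1.31 (17 (r + 1) + 2) + 36 (r + 4) ≤ 288 (r + 1) + 144 = 144 (r + 2) ^ 2 - 144 (r + 1) ^ 2`.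
* `pp_all`: induction on `r` from `pp_zero` (`2 ^ 0 + 3 = 4`, `σ = 2 ≤ (0 + 2) ^ 2`), `pp_step`, `theta_ineq`, `pp_mono`; `(r + 2) ^ 2 + r + 4 ≤ (r + 3) ^ 2`.
-/

set_option autoImplicit false
set_option linter.unusedSectionVars false
set_option linter.unusedVariables false

open Finset

namespace Pool.Agent.H44C

variable {V E : Type} [Fintype V] [DecidableEq V] [Fintype E] {s t : E → V} {l : V × V → ℝ} {T : ℤ → ℝ}

theorem pp_zero (hT : Tst s t l T) : PP s t l T 4 144 2 := by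
  intro F hF p q hq
  have h1 := step_mid hT hF p 4
  have h2 : bnd F p q ⊆ bnd F p (p + (4 : ℕ)) := bnd_mono (le_refl _) hq
  have h3 := En_mono hT.pos h2 F
  push_cast at h1 h3 ⊢
  linarith

/-- the square of the sum of two roots -/
private theorem sq_aux {τ τ' x y θ : ℝ} (hτ : 0 ≤ τ) (hττ : τ ≤ τ') (hx : 0 ≤ x) (hy : 0 ≤ y)
    (hθ : 0 ≤ θ) : (√(2 * τ * x) + √(θ * τ' * y)) ^ 2 ≤
      τ' * (2 * x + θ * y + √(2 * θ) * (x + y)) := by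
  have hτ' : 0 ≤ τ' := hτ.trans hττ
  have h1 : √(2 * τ * x) ≤ √(2 * τ' * x) := Real.sqrt_le_sqrt (by
    have := mul_le_mul_of_nonneg_right hττ hx
    linarith)
  have h2 : (√(2 * τ * x) + √(θ * τ' * y)) ^ 2 ≤ (√(2 * τ' * x) + √(θ * τ' * y)) ^ 2 :=
    pow_le_pow_left₀ (add_nonneg (Real.sqrt_nonneg _) (Real.sqrt_nonneg _))
      (add_le_add_left h1 _) 2
  refine h2.trans ?_
  have h3 : √(2 * τ' * x) ^ 2 = 2 * τ' * x := Real.sq_sqrt (by positivity)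
  have h4 : √(θ * τ' * y) ^ 2 = θ * τ' * y := Real.sq_sqrt (by positivity)
  have h5 : √(2 * θ) ^ 2 = 2 * θ := Real.sq_sqrt (by positivity)
  have h6 : 0 ≤ √(2 * θ) := Real.sqrt_nonneg _
  generalize √(2 * τ' * x) = α at *
  generalize √(θ * τ' * y) = β at *
  generalize √(2 * θ) = w at *
  have h7 : 2 * α * β ≤ w * τ' * (x + y) := by
    refine (le_abs_self _).trans (abs_le_of_sq_le_sq ?_ (by positivity))
    have e1 : (2 * α * β) ^ 2 = 4 * α ^ 2 * β ^ 2 := by ring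
    have e2 : (w * τ' * (x + y)) ^ 2 = w ^ 2 * τ' ^ 2 * (x + y) ^ 2 := by ring
    rw [e1, e2, h3, h4, h5]
    have e3 : 2 * θ * τ' ^ 2 * (x + y) ^ 2 - 4 * (2 * τ' * x) * (θ * τ' * y) =
        2 * θ * τ' ^ 2 * (x - y) ^ 2 := by ring
    have e4 : 0 ≤ 2 * θ * τ' ^ 2 * (x - y) ^ 2 := by positivity
    linarith
  have e5 : (α + β) ^ 2 = α ^ 2 + β ^ 2 + 2 * α * β := by ring
  rw [e5, h3, h4]
  linarith

private theorem kappa_mono (r : ℕ) : ((1 - (1 / 2 : ℝ) ^ (r + 4))⁻¹) ^ 2 ≤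
    ((1 - (1 / 2 : ℝ) ^ (r + 3))⁻¹) ^ 2 := by
  have h1 : (1 / 2 : ℝ) ^ (r + 4) ≤ (1 / 2 : ℝ) ^ (r + 3) :=
    pow_le_pow_of_le_one (by norm_num) (by norm_num) (by omega)
  have h2 : (1 / 2 : ℝ) ^ (r + 3) ≤ 1 / 2 := by
    have : (1 / 2 : ℝ) ^ (r + 3) ≤ (1 / 2) ^ 1 :=
      pow_le_pow_of_le_one (by norm_num) (by norm_num) (by omega)
    simpa using this
  have h3 : 0 < 1 - (1 / 2 : ℝ) ^ (r + 3) := by linarith
  exact pow_le_pow_left₀ (inv_nonneg.2 (by linarith)) (inv_anti₀ h3 (by linarith)) 2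

private theorem sum_aux {κ κ' θ w c τ x y d A B C : ℝ} (hκ : κ' ≤ κ) (hκ0 : 0 ≤ κ') (hθ : 0 ≤ θ)
    (hw : 0 ≤ w) (hc : 0 ≤ c) (hτ : 0 ≤ τ) (hx : 0 ≤ x) (hy : 0 ≤ y) (hd : y + x ≤ d)
    (hA : A ≤ κ' * (τ * (2 * x + θ * y + w * (x + y)))) (hB : B ≤ 36 * c * τ * d)
    (hC : C ≤ κ * (θ * τ * x)) : A + B + C ≤ (κ * (θ + w + 2) + 36 * c) * τ * d := by
  have h0 : 0 ≤ κ := hκ0.trans hκ
  have h1 : κ' * (τ * (2 * x + θ * y + w * (x + y))) ≤ κ * (τ * (2 * x + θ * y + w * (x + y))) :=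
    mul_le_mul_of_nonneg_right hκ (by positivity)
  have h2 : κ * (θ + w + 2) * τ * (y + x) ≤ κ * (θ + w + 2) * τ * d :=
    mul_le_mul_of_nonneg_left hd (by positivity)
  have h3 : 0 ≤ 2 * (κ * τ * y) := by positivity
  have h4 : κ * (θ + w + 2) * τ * (y + x) = κ * (τ * (2 * x + θ * y + w * (x + y))) +
      κ * (θ * τ * x) + 2 * (κ * τ * y) := by ring
  have h5 : (κ * (θ + w + 2) + 36 * c) * τ * d = κ * (θ + w + 2) * τ * d + 36 * c * τ * d := by ring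
  linarith

theorem pp_step (hT : Tst s t l T) {r σ : ℕ} {θ : ℝ} (hθ : 0 ≤ θ) (h : PP s t l T (2 ^ r + 3) θ σ) :
    PP s t l T (2 ^ (r + 1) + 3) (((1 - (1 / 2 : ℝ) ^ (r + 3))⁻¹) ^ 2 * (θ + √(2 * θ) + 2) + 36 * (r + 4)) (σ + (r + 4)) := by
  intro F hF p q hq
  obtain ⟨P, hP⟩ : ∃ P : ℤ, P = 2 ^ r := ⟨_, rfl⟩
  have hP0 : 1 ≤ P := by
    rw [hP]
    exact one_le_pow₀ (by norm_num)
  obtain ⟨m, hm⟩ : ∃ m : ℤ, m = p + P + 2 := ⟨_, rfl⟩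
  obtain ⟨k, hk⟩ : ∃ k : ℤ, k = m - ((r + 4 : ℕ) : ℤ) := ⟨_, rfl⟩
  obtain ⟨G, hG⟩ := exists_dis s t F k
  have hsplit := dis_split hG
  have hx := D_nonneg (s := s) (t := t) G
  have hy := D_nonneg (s := s) (t := t) (F - G)
  have hq' : q ≤ p + 2 * P + 3 := by
    have e : ((2 ^ (r + 1) + 3 : ℕ) : ℤ) = 2 * P + 3 := by
      rw [hP]; push_cast; ring
    rw [e] at hq
    linarith
  have hN : ((2 ^ r + 3 : ℕ) : ℤ) = P + 3 := by
    rw [hP]; push_cast; ring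
  obtain ⟨τ, hτdef⟩ : ∃ τ : ℝ, τ = T (p - ((σ + (r + 4) : ℕ) : ℤ)) := ⟨_, rfl⟩
  have hτ : 0 ≤ τ := by rw [hτdef]; exact hT.nonneg _
  -- lower part
  have hB := h (F - G) (by linarith) (p - ((r + 4 : ℕ) : ℤ)) (k + 1) (by rw [hN]; omega)
  have hBe : p - ((r + 4 : ℕ) : ℤ) - (σ : ℤ) = p - ((σ + (r + 4) : ℕ) : ℤ) := by push_cast; ring
  rw [hBe, ← hτdef] at hB
  have hL := step_low hT hG hF (c := r + 4) (by omega) hB
  have hTk : T k ≤ τ := by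
    rw [hτdef]
    exact hT.anti (by push_cast; push_cast at hk; omega)
  have hL2 := sq_aux (hT.nonneg k) hTk hx hy hθ
  have hκ0 : 0 ≤ ((1 - (1 / 2 : ℝ) ^ (r + 4))⁻¹) ^ 2 := sq_nonneg _
  have hA := hL.trans (mul_le_mul_of_nonneg_left hL2 hκ0)
  -- middle part
  have hM := step_mid hT hF k (r + 4)
  have hTk2 : T (k - 2) ≤ τ := by
    rw [hτdef]
    exact hT.anti (by push_cast; push_cast at hk; omega)
  have hkm : k + ((r + 4 : ℕ) : ℤ) = m := by rw [hk]; ring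
  rw [hkm] at hM
  have hDF := D_nonneg (s := s) (t := t) F
  have hM2 : En l (bnd F k m) F ≤ 36 * ((r : ℝ) + 4) * τ * D s t F F := by
    refine hM.trans ?_
    push_cast
    exact mul_le_mul_of_nonneg_right (mul_le_mul_of_nonneg_left hTk2 (by positivity)) hDF
  -- upper part
  have hU := step_up hT.pos hG (m := m) (q := q) (c := r + 4) (by omega) hk
  rw [show r + 4 - 1 = r + 3 by omega] at hU
  have hU1 := h G (by linarith) (m - 1) (q + 1) (by rw [hN]; omega)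
  have hTm : T (m - 1 - (σ : ℤ)) ≤ τ := by
    rw [hτdef]
    exact hT.anti (by push_cast; omega)
  have hU2 : θ * T (m - 1 - (σ : ℤ)) * D s t G G ≤ θ * τ * D s t G G :=
    mul_le_mul_of_nonneg_right (mul_le_mul_of_nonneg_left hTm hθ) hx
  have hκ1 : 0 ≤ ((1 - (1 / 2 : ℝ) ^ (r + 3))⁻¹) ^ 2 := sq_nonneg _
  have hC := hU.trans (mul_le_mul_of_nonneg_left (hU1.trans hU2) hκ1)
  -- together
  have h1 := En_union_le hT.pos (bnd_split F p k q) F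
  have h2 := En_union_le hT.pos (bnd_split F k m q) F
  have h3 := sum_aux (kappa_mono r) hκ0 hθ (Real.sqrt_nonneg (2 * θ))
    (by positivity : (0 : ℝ) ≤ (r : ℝ) + 4) hτ hx hy hsplit hA hM2 hC
  rw [← hτdef]
  linarith

theorem pp_mono (hT : Tst s t l T) {n σ σ' : ℕ} {θ θ' : ℝ} (hθ : 0 ≤ θ) (h : PP s t l T n θ σ) (hθ' : θ ≤ θ') (hσ : σ ≤ σ') : PP s t l T n θ' σ' := by
  intro F hF p q hq
  refine (h F hF p q hq).trans ?_
  have h1 : T (p - (σ : ℤ)) ≤ T (p - (σ' : ℤ)) := hT.anti (by omega)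
  exact mul_le_mul_of_nonneg_right (mul_le_mul hθ' h1 (hT.nonneg _) (hθ.trans hθ')) (D_nonneg _)

theorem theta_ineq (r : ℕ) :
    ((1 - (1 / 2 : ℝ) ^ (r + 3))⁻¹) ^ 2 * (144 * ((r : ℝ) + 1) ^ 2 + √(2 * (144 * ((r : ℝ) + 1) ^ 2)) + 2) + 36 * ((r : ℝ) + 4) ≤ 144 * ((r : ℝ) + 1 + 1) ^ 2 := by
  have hr : (0 : ℝ) ≤ r := Nat.cast_nonneg r
  -- the root
  have h1 : √(2 * (144 * ((r : ℝ) + 1) ^ 2)) ≤ 17 * ((r : ℝ) + 1) := by
    rw [Real.sqrt_le_left (by positivity)]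
    have : 0 ≤ ((r : ℝ) + 1) ^ 2 := sq_nonneg _
    linarith
  -- powers
  have hpow : ∀ r : ℕ, ((r : ℝ) + 1) ^ 2 ≤ 9 / 4 * 2 ^ r := by
    intro r
    induction r with
    | zero => norm_num
    | succ r ih =>
      rcases Nat.lt_or_ge r 2 with h2 | h2
      · interval_cases r <;> norm_num
      · have h3 : (2 : ℝ) ≤ r := by exact_mod_cast h2
        rw [pow_succ (2 : ℝ) r]
        push_cast
        nlinarith
  have hx0 : 0 < (1 / 2 : ℝ) ^ (r + 3) := by positivity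
  have hx1 : (1 / 2 : ℝ) ^ (r + 3) ≤ 1 / 8 := by
    have : (1 / 2 : ℝ) ^ (r + 3) ≤ (1 / 2) ^ 3 :=
      pow_le_pow_of_le_one (by norm_num) (by norm_num) (by omega)
    linarith
  have hx2 : (1 / 2 : ℝ) ^ (r + 3) * ((r : ℝ) + 1) ^ 2 ≤ 9 / 32 := by
    have h2 := mul_le_mul_of_nonneg_left (hpow r) hx0.le
    have h3 : (1 / 2 : ℝ) ^ (r + 3) * (9 / 4 * 2 ^ r) = 9 / 32 := by
      rw [pow_add, one_div, inv_pow]
      field_simp
      norm_num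
    linarith
  generalize (1 / 2 : ℝ) ^ (r + 3) = x at *
  have hκ : ((1 - x)⁻¹) ^ 2 ≤ 1 + 5 / 2 * x := by
    have h2 : 0 < 1 - x := by linarith
    rw [inv_pow, inv_le_iff_one_le_mul₀ (by positivity)]
    nlinarith [mul_nonneg hx0.le (sub_nonneg.2 hx1), mul_nonneg (mul_nonneg hx0.le hx0.le) hx0.le]
  have hκ0 : 0 ≤ ((1 - x)⁻¹) ^ 2 := sq_nonneg _
  generalize √(2 * (144 * ((r : ℝ) + 1) ^ 2)) = w at *
  generalize ((1 - x)⁻¹) ^ 2 = κ at *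
  have hκ2 : κ ≤ 1 + 5 / 16 := by linarith
  have h2 : κ * (144 * ((r : ℝ) + 1) ^ 2) ≤ 144 * ((r : ℝ) + 1) ^ 2 + 101.25 := by
    have h3 := mul_le_mul_of_nonneg_right hκ (by positivity : (0 : ℝ) ≤ 144 * ((r : ℝ) + 1) ^ 2)
    linarith
  have h3 : κ * (w + 2) ≤ (1 + 5 / 16) * (17 * ((r : ℝ) + 1) + 2) :=
    (mul_le_mul_of_nonneg_left (by linarith) hκ0).trans
      (mul_le_mul_of_nonneg_right hκ2 (by positivity))
  nlinarith

theorem pp_all (hT : Tst s t l T) (r : ℕ) : PP s t l T (2 ^ r + 3) (144 * ((r : ℝ) + 1) ^ 2) ((r + 2) ^ 2) := by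
  induction r with
  | zero =>
    have h1 := pp_mono hT (by norm_num) (pp_zero hT) (le_refl (144 : ℝ)) (show 2 ≤ (0 + 2) ^ 2 by norm_num)
    simpa using h1
  | succ r ih =>
    have h1 := pp_step hT (by positivity) ih
    have h2 := theta_ineq r
    refine pp_mono hT ?_ h1 ?_ ?_
    · have : 0 ≤ √(2 * (144 * ((r : ℝ) + 1) ^ 2)) := Real.sqrt_nonneg _
      positivity
    · push_cast
      exact h2
    · nlinarith

end Pool.Agent.H44C
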