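import Pool.Agent.H44C.TreeDefs

/-!
# H44C TreeA: combinatorics of the tree

Words `w.1 : List (Fin 3)`, `par` = tail, `tr n` = keep the last `n` letters of the list (`drop (length - n)`).

* `tr_tr`, `length_tr`, `tr_of_le`, `tr_par`: rules for `List.drop`, `List.length_drop`, `List.drop_drop`, `List.tail = drop 1` (`Subtype.ext`).
* `nb_cases`: by definition.  `tr_nb`: from `nb_cases` and `tr_par` (`par (nb a w) = w` with `N ≤ |w| < |nb a w|`; in the case `nb a w = par w` use `N < |w|` or, for `|w| = N`, note that the statement is only for children).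
* `coord`: induction on `n`.
* `exists_ball`: `N` = the maximum of the lengths of the `w` with `F w ≠ F (par w)`; then `F w = F (par w)` for `|w| > N`; induction on `|w|`.
* `ext_eq`: `F (x.1 n) = F (tr N (x.1 n)) = F (x.1 N)` for `n ≥ N` (`coord`), so the limit is this value (`Tendsto.limUnder_eq`, `tendsto_const_nhds.congr'`).
* `adj_iff` is a sanity check.
-/

set_option autoImplicit false

open Filter Topology

namespace Pool.Agent.H44C

theorem length_tr (n : ℕ) (w : W) : (tr n w).1.length = min n w.1.length := by
  simp only [tr, List.length_drop]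
  omega

theorem tr_of_le {n : ℕ} {w : W} (h : w.1.length ≤ n) : tr n w = w := by
  apply Subtype.ext
  simp only [tr]
  rw [Nat.sub_eq_zero_of_le h, List.drop_zero]

theorem tr_tr (m n : ℕ) (w : W) : tr m (tr n w) = tr (min m n) w := by
  apply Subtype.ext
  simp only [tr, List.length_drop, List.drop_drop]
  congr 1
  omega

theorem tr_par {n : ℕ} {w : W} (h : n < w.1.length) : tr n (par w) = tr n w := by
  apply Subtype.ext
  simp only [tr, par, List.length_tail]
  rw [← List.drop_one, List.drop_drop]
  congr 1
  omega

theorem par_tr {n : ℕ} {w : W} (h : n < w.1.length) : par (tr (n + 1) w) = tr n w := by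
  apply Subtype.ext
  simp only [tr, par]
  rw [← List.drop_one, List.drop_drop]
  congr 1
  omega

theorem length_par (w : W) : (par w).1.length = w.1.length - 1 := by
  simp only [par, List.length_tail]

theorem nb_cases (a : Fin 3) (w : W) : (w.1.head? = some a ∧ nb a w = par w) ∨ (¬ w.1.head? = some a ∧ (nb a w).1 = a :: w.1 ∧ par (nb a w) = w) := by
  by_cases h : w.1.head? = some a
  · left
    exact ⟨h, dif_pos h⟩
  · right
    have h1 : (nb a w).1 = a :: w.1 := congrArg Subtype.val (dif_neg h)
    refine ⟨h, h1, ?_⟩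
    apply Subtype.ext
    simp only [par, h1, List.tail_cons]

/-- the neighbours of `v` are `par v` and the vertices `w` with `par w = v` -/
theorem adj_iff (v w : W) : (∃ a, nb a v = w) ↔ (v ≠ root ∧ w = par v) ∨ (w ≠ root ∧ v = par w) := by
  constructor
  · rintro ⟨a, ha⟩
    rcases nb_cases a v with ⟨h1, h2⟩ | ⟨h1, h2, h3⟩
    · left
      refine ⟨?_, by rw [← ha, h2]⟩
      rintro rfl
      simp [root] at h1
    · right
      refine ⟨?_, by rw [← ha, h3]⟩
      intro hw
      rw [ha, hw] at h2
      simp [root] at h2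
  · rintro (⟨h1, h2⟩ | ⟨h1, h2⟩)
    · obtain ⟨l, hl⟩ := v
      cases l with
      | nil => exact absurd rfl h1
      | cons b t =>
        refine ⟨b, ?_⟩
        rcases nb_cases b ⟨b :: t, hl⟩ with ⟨_, h4⟩ | ⟨h3, _⟩
        · rw [h4, h2]
        · exact absurd rfl h3
    · obtain ⟨l, hl⟩ := w
      cases l with
      | nil => exact absurd rfl h1
      | cons b t =>
        refine ⟨b, ?_⟩
        subst h2
        rcases nb_cases b (par ⟨b :: t, hl⟩) with ⟨h3, _⟩ | ⟨_, h4, _⟩
        · exfalso
          simp only [par, List.tail_cons] at h3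
          rw [List.isChain_cons] at hl
          exact hl.1 b h3 rfl
        · apply Subtype.ext
          rw [h4]
          rfl

theorem coord (x : Tbar) {m n : ℕ} (h : m ≤ n) : x.1 m = tr m (x.1 n) := by
  induction n, h using Nat.le_induction with
  | base =>
    rw [x.2 m, tr_tr, min_self]
  | succ n hmn ih =>
    rw [ih, x.2 n, tr_tr, min_eq_left hmn]

theorem exists_ball {F : W → ℝ} (hF : F ∈ FF) : ∃ N, ∀ w, F w = F (tr N w) := by
  have hfin : {w | F w ≠ F (par w)}.Finite := hF
  obtain ⟨N, hN⟩ : ∃ N : ℕ, ∀ w, F w ≠ F (par w) → w.1.length ≤ N := by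
    obtain ⟨N, hN⟩ := (hfin.image fun w : W => w.1.length).bddAbove
    exact ⟨N, fun w hw => hN ⟨w, hw, rfl⟩⟩
  refine ⟨N, ?_⟩
  have key : ∀ k : ℕ, ∀ w : W, w.1.length = k → F w = F (tr N w) := by
    intro k
    induction k with
    | zero =>
      intro w hw
      rw [tr_of_le (by omega)]
    | succ k ih =>
      intro w hw
      by_cases h : w.1.length ≤ N
      · rw [tr_of_le h]
      · have h1 : F w = F (par w) := by
          by_contra h2
          exact h (hN w h2)
        rw [h1, ih (par w) (by rw [length_par, hw]; rfl), tr_par (by omega)]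
  intro w
  exact key _ w rfl

theorem mem_FF_of_ball {F : W → ℝ} {N : ℕ} (hF : ∀ w, F w = F (tr N w)) : F ∈ FF := by
  have hsub : {w : W | F w ≠ F (par w)} ⊆ {w : W | w.1.length ≤ N} := by
    intro w hw
    by_contra h
    have h1 : N < w.1.length := by
      simpa using h
    apply hw
    rw [hF w, hF (par w), tr_par h1]
  have hfin : {w : W | w.1.length ≤ N}.Finite := by
    have h1 : {l : List (Fin 3) | l.length ≤ N}.Finite := List.finite_length_le (Fin 3) N
    exact h1.preimage (Subtype.val_injective.injOn)
  exact hfin.subset hsub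

theorem ext_eq {F : W → ℝ} {N : ℕ} (hF : ∀ w, F w = F (tr N w)) (x : Tbar) : ext F x = F (x.1 N) := by
  have h : Tendsto (fun n => F (x.1 n)) atTop (𝓝 (F (x.1 N))) := by
    refine tendsto_const_nhds.congr' ?_
    filter_upwards [eventually_ge_atTop N] with n hn
    rw [hF (x.1 n), ← coord x hn]
  exact h.limUnder_eq

end Pool.Agent.H44C
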