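import Pool.Agent.H44C.TreeA
import Pool.Agent.H44C.Basic

/-!
# H44C TreeB: the ball of radius `N` as a finite network

The network has the vertices `Bl N` (words of length `≤ N`), and the edges are also indexed by `Bl N`: the edge `w` joins `w` and `pb w` (the edge `root` is a loop).

* `energy_eq`: for `|w| > N`: `F w = F (tr N w) = F (tr N (par w)) = F (par w)` (`tr_par`), so the sum over `W` is the sum over the words of length `≤ N` (`tsum_eq_sum` or `tsum_subtype`/`hasSum_subtype_iff_of_support_subset`, `tsum_fintype`).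
* `lf_harm`: let `G' = lf G`, `G' w = G (tb N w)`.  If `|w| > N` all neighbours `v` of `w` have `tr N v = tr N w` (`nb_cases`, `tr_par`).  If `|w| ≤ N`, `w' = ⟨w, _⟩`: `D id pb G (Pi.single w' 1) = ∑ v, (G v - G (pb v)) * (single v - single (pb v))`
  `= (G w' - G (pb w')) - ∑_{v : pb v = w'} (G v - G (pb v))` (for `w = root` the first term is `0`, and `v = root` contributes `0` to the sum); the `v` with `pb v = w'`, `v ≠ root`, are the neighbours `nb a w` of length `≤ N` with `w.head? ≠ some a`; if `|w| = N` the children have the same `G'` as `w`.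
  So `D id pb G (Pi.single w' 1) = - ∑ a, (G' (nb a w) - G' w)`.
* `rs_lf`, `lf_tr`, `lf_cl`: by definition (`tr_of_le`, `tr_tr`).
-/

set_option autoImplicit false

open Finset

namespace Pool.Agent.H44C

/-- the ball of radius `N` around the root -/
def Bl (N : ℕ) : Type := {w : W // w.1.length ≤ N}

noncomputable instance (N : ℕ) : DecidableEq (Bl N) := Classical.decEq _

instance finiteBl (N : ℕ) : Finite (Bl N) := by
  have : Finite {l : List (Fin 3) // l.length ≤ N} := List.finite_length_le (Fin 3) N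
  refine Finite.of_injective (fun w : Bl N => (⟨w.1.1, w.2⟩ : {l : List (Fin 3) // l.length ≤ N})) ?_
  intro w v h
  have h1 : w.1.1 = v.1.1 := congrArg (fun x : {l : List (Fin 3) // l.length ≤ N} => x.1) h
  exact Subtype.ext (Subtype.ext h1)

noncomputable instance (N : ℕ) : Fintype (Bl N) := Fintype.ofFinite _

/-- the next vertex on the path to the root -/
def pb {N : ℕ} (w : Bl N) : Bl N := ⟨par w.1, by rw [length_par]; exact (Nat.sub_le _ _).trans w.2⟩

/-- restriction to the ball -/
def rs (N : ℕ) (F : W → ℝ) : Bl N → ℝ := fun w => F w.1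

/-- projection to the ball -/
def tb (N : ℕ) (w : W) : Bl N := ⟨tr N w, by rw [length_tr]; exact min_le_left _ _⟩

/-- the function on the tree given by a function on the ball -/
def lf {N : ℕ} (G : Bl N → ℝ) : W → ℝ := fun w => G (tb N w)

theorem energy_eq {N : ℕ} {F H : W → ℝ} (hF : ∀ w, F w = F (tr N w)) (hH : ∀ w, H w = H (tr N w)) :
    energy F H = D (id : Bl N → Bl N) pb (rs N F) (rs N H) := by
  have _ := hH
  have key : ∀ w : W, N < w.1.length → F w = F (par w) := fun w hw => by
    rw [hF w, hF (par w), tr_par hw]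
  have hs : Function.support (fun w : W => (F w - F (par w)) * (H w - H (par w))) ⊆ {w : W | w.1.length ≤ N} := by
    intro w hw
    by_contra hlt
    have h1 : N < w.1.length := not_le.1 hlt
    exact hw (by simp only [key w h1, sub_self, zero_mul])
  have h2 : energy F H = ∑' w : Bl N, (F w.1 - F (par w.1)) * (H w.1 - H (par w.1)) :=
    (tsum_subtype_eq_of_support_subset hs).symm
  rw [h2, tsum_fintype]
  rfl

theorem tb_of_le {N : ℕ} {w : W} (h : w.1.length ≤ N) : tb N w = ⟨w, h⟩ := Subtype.ext (tr_of_le h)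

theorem tb_congr {N : ℕ} {v w : W} (h : tr N v = tr N w) : tb N v = tb N w := Subtype.ext h

private theorem child_out {N : ℕ} {a : Fin 3} {w : W} (h1 : ¬ w.1.head? = some a) (hl : N < (nb a w).1.length) : tb N (nb a w) = tb N w := by
  rcases nb_cases a w with ⟨h, _⟩ | ⟨_, _, h2⟩
  · exact absurd h h1
  · exact tb_congr (by rw [← tr_par hl, h2])

private theorem child_sum {N : ℕ} (G : Bl N → ℝ) (w : W) (hw : w.1.length ≤ N) :
    ∑ a ∈ univ.filter (fun a : Fin 3 => ¬ w.1.head? = some a), (lf G (nb a w) - lf G w)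
      = ∑ e ∈ univ.filter (fun e : Bl N => pb e = ⟨w, hw⟩), (G e - G (pb e)) := by
  classical
  have hin : ∀ a : Fin 3, ¬ w.1.head? = some a → lf G (nb a w) - lf G w ≠ 0 → (nb a w).1.length ≤ N := by
    intro a ha hne
    by_contra hlt
    refine hne ?_
    simp only [lf]
    rw [child_out ha (not_le.1 hlt), sub_self]
  have hpb : ∀ a : Fin 3, ¬ w.1.head? = some a → lf G (nb a w) - lf G w ≠ 0 → pb (tb N (nb a w)) = ⟨w, hw⟩ := by
    intro a ha hne
    rw [tb_of_le (hin a ha hne)]
    rcases nb_cases a w with ⟨h, _⟩ | ⟨_, _, h2⟩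
    · exact absurd h ha
    · exact Subtype.ext h2
  refine Finset.sum_bij_ne_zero (fun a _ _ => tb N (nb a w)) ?_ ?_ ?_ ?_
  · intro a h1 h2
    rw [mem_filter] at h1 ⊢
    exact ⟨mem_univ _, hpb a h1.2 h2⟩
  · intro a h1 h2 b h3 h4 hab
    rw [mem_filter] at h1 h3
    rw [tb_of_le (hin a h1.2 h2), tb_of_le (hin b h3.2 h4)] at hab
    have h5 : nb a w = nb b w := congrArg Subtype.val hab
    have h6 : (nb a w).1 = (nb b w).1 := congrArg Subtype.val h5
    rcases nb_cases a w with ⟨h, _⟩ | ⟨_, h7, _⟩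
    · exact absurd h h1.2
    rcases nb_cases b w with ⟨h, _⟩ | ⟨_, h8, _⟩
    · exact absurd h h3.2
    rw [h7, h8] at h6
    exact (List.cons.inj h6).1
  · intro e he hne
    rw [mem_filter] at he
    have h1 : par e.1 = w := congrArg Subtype.val he.2
    obtain ⟨⟨l, hl⟩, hN⟩ := e
    cases l with
    | nil =>
      exact absurd (sub_self _) hne
    | cons a l =>
      have h2 : l = w.1 := congrArg Subtype.val h1
      subst h2
      have ha : ¬ w.1.head? = some a := by
        intro hh
        rw [List.isChain_cons] at hl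
        exact hl.1 a hh rfl
      have h3 : nb a w = ⟨a :: w.1, hl⟩ := by
        rcases nb_cases a w with ⟨h, _⟩ | ⟨_, h7, _⟩
        · exact absurd h ha
        · exact Subtype.ext h7
      have h4 : tb N (nb a w) = ⟨⟨a :: w.1, hl⟩, hN⟩ := by
        rw [h3]; exact tb_of_le hN
      refine ⟨a, mem_filter.2 ⟨mem_univ _, ha⟩, ?_, h4⟩
      simp only [lf]
      rw [h4, tb_of_le hw]
      rw [he.2] at hne
      exact hne
  · intro a h1 h2
    rw [mem_filter] at h1
    rw [hpb a h1.2 h2]
    simp only [lf]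
    rw [tb_of_le hw]

private theorem par_sum {N : ℕ} (G : Bl N → ℝ) (w : W) (hw : w.1.length ≤ N) :
    ∑ a ∈ univ.filter (fun a : Fin 3 => w.1.head? = some a), (lf G (nb a w) - lf G w) = - (G ⟨w, hw⟩ - G (pb ⟨w, hw⟩)) := by
  classical
  obtain ⟨l, hl⟩ := w
  cases l with
  | nil =>
    have h1 : pb (⟨⟨[], hl⟩, hw⟩ : Bl N) = ⟨⟨[], hl⟩, hw⟩ := rfl
    rw [h1, sub_self, neg_zero]
    refine Finset.sum_eq_zero fun a ha => ?_
    rw [mem_filter] at ha
    exact absurd ha.2 (by simp)
  | cons b l =>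
    have h1 : univ.filter (fun a : Fin 3 => (b :: l).head? = some a) = {b} := by
      ext a
      simp [eq_comm]
    have h2 : nb b ⟨b :: l, hl⟩ = par ⟨b :: l, hl⟩ := by
      rcases nb_cases b ⟨b :: l, hl⟩ with ⟨_, h⟩ | ⟨h, _⟩
      · exact h
      · exact absurd rfl h
    have h3 : (par ⟨b :: l, hl⟩).1.length ≤ N := by
      rw [length_par]; exact (Nat.sub_le _ _).trans hw
    show ∑ a ∈ univ.filter (fun a : Fin 3 => (b :: l).head? = some a), _ = _
    rw [h1, Finset.sum_singleton, h2]
    simp only [lf]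
    rw [tb_of_le h3, tb_of_le hw]
    have h4 : pb (⟨⟨b :: l, hl⟩, hw⟩ : Bl N) = ⟨par ⟨b :: l, hl⟩, h3⟩ := rfl
    rw [h4]
    ring

theorem lf_harm {N : ℕ} {G : Bl N → ℝ} (w : W) (h : ∀ hw : w.1.length ≤ N, Hm (id : Bl N → Bl N) pb G ⟨w, hw⟩) : HarmAt (lf G) w := by
  classical
  unfold HarmAt
  rcases le_or_gt w.1.length N with hw | hw
  · have h0 := h hw
    unfold Hm D at h0
    have h1 : ∑ e : Bl N, (G (id e) - G (pb e)) * ((Pi.single (⟨w, hw⟩ : Bl N) (1 : ℝ) : Bl N → ℝ) (id e) - (Pi.single (⟨w, hw⟩ : Bl N) (1 : ℝ) : Bl N → ℝ) (pb e))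
        = (G ⟨w, hw⟩ - G (pb ⟨w, hw⟩)) - ∑ e ∈ univ.filter (fun e : Bl N => pb e = ⟨w, hw⟩), (G e - G (pb e)) := by
      simp only [id, mul_sub, Finset.sum_sub_distrib, Pi.single_apply, mul_ite, mul_one, mul_zero, Finset.sum_ite_eq',
        mem_univ, if_true, ← Finset.sum_filter]
    rw [h1, ← child_sum G w hw] at h0
    have h2 := par_sum G w hw
    have h3 := Finset.sum_filter_add_sum_filter_not univ (fun a : Fin 3 => w.1.head? = some a) (fun a => lf G (nb a w) - lf G w)
    linarith
  · refine Finset.sum_eq_zero fun a _ => ?_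
    have h1 : tb N (nb a w) = tb N w := by
      rcases nb_cases a w with ⟨_, h2⟩ | ⟨h2, h3, _⟩
      · rw [h2]; exact tb_congr (tr_par hw)
      · exact child_out h2 (by rw [h3, List.length_cons]; exact Nat.lt_succ_of_lt hw)
    simp only [lf]
    rw [h1, sub_self]

theorem lf_tr {N : ℕ} (G : Bl N → ℝ) (w : W) : lf G w = lf G (tr N w) := by
  simp only [lf]
  rw [tb_congr (v := tr N w) (w := w) (by rw [tr_tr, min_self])]

theorem rs_lf {N : ℕ} (G : Bl N → ℝ) : rs N (lf G) = G := by
  funext w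
  simp only [rs, lf]
  rw [tb_of_le w.2]
  rfl

theorem rs_clip {N : ℕ} (F : W → ℝ) : rs N (clipW F) = cl (rs N F) := rfl

theorem clipW_tr {N : ℕ} {F : W → ℝ} (hF : ∀ w, F w = F (tr N w)) (w : W) : clipW F w = clipW F (tr N w) := by
  simp only [clipW]
  rw [← hF w]

end Pool.Agent.H44C
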