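import Pool.Agent.H44C.TreeB

/-!
# H44C TreeC: the weight on the pairs of the ball given by a measure on the compactification

`wt μ N z` is the measure of the set of the pairs of points which are projected to `z.1`, `z.2`.

* The projection `π x = (x.1 N : W)` is continuous (`continuous_apply`, `continuous_subtype_val`; `W` is discrete), so it is measurable as a map to `W` with the measurable space `⊤` (preimages of arbitrary sets are open: `IsOpen.measurableSet`).  The map `π₂ : Tbar × Tbar → Bl N × Bl N`, `z ↦ (⟨z.1.1 N, _⟩, ⟨z.2.1 N, _⟩)`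
  (the length of `x.1 N` is at most `N`: `coord x le_rfl`, i.e. `x.1 N = tr N (x.1 (N + 1))`, `length_tr`) has measurable fibres: they are the intersections of preimages under `Prod.fst`, `Prod.snd`.
* `pairEnergy_eq`: by `ext_eq` the integrand is `(F (z.1.1 N) - F (z.2.1 N)) ^ 2`, a function of `π₂ z`, which has finitely many values: it is `∑ p : Bl N × Bl N, indicator (π₂ ⁻¹' {p}) (fun _ => (F p.1 - F p.2) ^ 2)`; `MeasureTheory.integral_finset_sum`, `integral_indicator_const` (or `integral_map` and `integral_fintype`).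
* `wt_sum`: the fibres of `π₂` are disjoint and cover everything, so the sum of the measures is `μ univ = 1` (or `pairEnergy`-like integral of `1`).
-/

set_option autoImplicit false

open Finset MeasureTheory

namespace Pool.Agent.H44C

/-- the weight of the pair `z` -/
noncomputable def wt (μ : Measure (Tbar × Tbar)) (N : ℕ) (z : Bl N × Bl N) : ℝ := μ.real {p | p.1.1 N = z.1.1 ∧ p.2.1 N = z.2.1}

theorem wt_nonneg (μ : Measure (Tbar × Tbar)) (N : ℕ) (z : Bl N × Bl N) : 0 ≤ wt μ N z := measureReal_nonneg

private theorem length_coord (N : ℕ) (x : Tbar) : (x.1 N).1.length ≤ N := by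
  rw [x.2 N, length_tr]
  exact min_le_left _ _

private theorem meas_coord (N : ℕ) (a : W) : MeasurableSet {x : Tbar | x.1 N = a} := by
  have h : Continuous fun x : Tbar => x.1 N := (continuous_apply N).comp continuous_subtype_val
  exact ((isOpen_discrete ({a} : Set W)).preimage h).measurableSet

private theorem meas_fib (N : ℕ) (a b : W) : MeasurableSet {p : Tbar × Tbar | p.1.1 N = a ∧ p.2.1 N = b} :=
  (measurable_fst (meas_coord N a)).inter (measurable_snd (meas_coord N b))

/-- the sum of a function over the fibres of the projection to the pairs of the ball -/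
private theorem sum_fib (N : ℕ) (f : W → W → ℝ) (p : Tbar × Tbar) :
    f (p.1.1 N) (p.2.1 N) = ∑ z : Bl N × Bl N, Set.indicator {q : Tbar × Tbar | q.1.1 N = z.1.1 ∧ q.2.1 N = z.2.1} (fun _ => f z.1.1 z.2.1) p := by
  rw [Finset.sum_eq_single (⟨⟨p.1.1 N, length_coord N p.1⟩, ⟨p.2.1 N, length_coord N p.2⟩⟩ : Bl N × Bl N)]
  · rw [Set.indicator_of_mem]
    exact ⟨rfl, rfl⟩
  · intro z _ hz
    rw [Set.indicator_of_notMem]
    rintro ⟨h1, h2⟩
    exact hz (Prod.ext (Subtype.ext h1.symm) (Subtype.ext h2.symm))
  · intro h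
    exact absurd (Finset.mem_univ _) h

private theorem int_fib (μ : Measure (Tbar × Tbar)) [IsProbabilityMeasure μ] (N : ℕ) (f : W → W → ℝ) :
    ∫ p, f (p.1.1 N) (p.2.1 N) ∂μ = ∑ z : Bl N × Bl N, wt μ N z * f z.1.1 z.2.1 := by
  have h1 : (fun p : Tbar × Tbar => f (p.1.1 N) (p.2.1 N)) = fun p => ∑ z : Bl N × Bl N,
      Set.indicator {q : Tbar × Tbar | q.1.1 N = z.1.1 ∧ q.2.1 N = z.2.1} (fun _ => f z.1.1 z.2.1) p := funext (sum_fib N f)
  rw [h1, integral_finsetSum]
  · refine Finset.sum_congr rfl fun z _ => ?_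
    rw [integral_indicator_const _ (meas_fib N z.1.1 z.2.1), smul_eq_mul]
    rfl
  · intro z _
    exact (integrable_const _).indicator (meas_fib N z.1.1 z.2.1)

theorem wt_sum (μ : Measure (Tbar × Tbar)) [IsProbabilityMeasure μ] (N : ℕ) : ∑ z, wt μ N z = 1 := by
  have h := int_fib μ N fun _ _ => 1
  simpa using h.symm

theorem pairEnergy_eq (μ : Measure (Tbar × Tbar)) [IsProbabilityMeasure μ] {N : ℕ} {F : W → ℝ} (hF : ∀ w, F w = F (tr N w)) :
    pairEnergy μ F = En (wt μ N) univ (rs N F) := by
  have h := int_fib μ N fun a b => (F a - F b) ^ 2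
  simp only [pairEnergy, ext_eq hF]
  exact h

end Pool.Agent.H44C
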