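import Mathlib

/-!
# H44C TreeDefs: the tree with all degrees equal to `3`, its compactification, condensers

The vertices are the words in three letters in which neighbouring letters are different (the first letter of the list is the
last step of the path from the root); every vertex `w` has the three neighbours `nb a w`.  The edges are the pairs `{w, par w}`, `w ≠ root`.
The compactification `Tbar` is the inverse limit of the balls around the root: a point is given by its projections `x n` to the balls
of radius `n`; the vertex `w` has the projections `tr n w`, an end has the projections given by its ray from the root.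
-/

set_option autoImplicit false

open Filter

namespace Pool.Agent.H44C

/-- the vertices of the tree -/
def W : Type := {w : List (Fin 3) // w.IsChain (· ≠ ·)}

/-- the root -/
def root : W := ⟨[], List.isChain_nil⟩

/-- the next vertex on the path to the root (and the root for the root) -/
def par (w : W) : W := ⟨w.1.tail, w.2.tail⟩

/-- the neighbour of `w` in the direction `a` -/
def nb (a : Fin 3) (w : W) : W :=
  if h : w.1.head? = some a then par w
  else ⟨a :: w.1, by
    rw [List.isChain_cons]
    exact ⟨fun b hb hab => h (by rw [hab]; exact hb), w.2⟩⟩

/-- the projection of `w` to the ball of radius `n` around the root -/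
def tr (n : ℕ) (w : W) : W := ⟨w.1.drop (w.1.length - n), w.2.drop _⟩

/-- the Dirichlet form of the tree: the sum over the edges `{w, par w}` (the root contributes `0`) -/
noncomputable def energy (F H : W → ℝ) : ℝ := ∑' w : W, (F w - F (par w)) * (H w - H (par w))

/-- the functions with finitely supported gradient -/
def FF : Set (W → ℝ) := {F | {w | F w ≠ F (par w)}.Finite}

/-- `G` is harmonic at the vertex `w` -/
def HarmAt (G : W → ℝ) (w : W) : Prop := ∑ a : Fin 3, (G (nb a w) - G w) = 0

/-- truncation to `[0, 1]` -/
noncomputable def clipW (G : W → ℝ) : W → ℝ := fun w => max 0 (min 1 (G w))

/-- `G` is harmonic between the levels `0` and `1`: on the tree with edges of length one `clipW G` is the potential of the condenser with the plates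
`G ≤ 0` and `G ≥ 1` -/
def IsCondenser (G : W → ℝ) : Prop := ∀ w, 0 < G w → G w < 1 → HarmAt G w

/-- the capacity of the condenser: the energy of its potential on the tree with edges of length one -/
noncomputable def cap (G : W → ℝ) : ℝ := energy G (clipW G)

instance : TopologicalSpace W := ⊥

instance : DiscreteTopology W := ⟨rfl⟩

/-- the compactification of the tree by its ends -/
def Tbar : Type := {x : ℕ → W // ∀ n, x n = tr n (x (n + 1))}

instance : TopologicalSpace Tbar := instTopologicalSpaceSubtype

instance : MeasurableSpace Tbar := borel Tbar

instance : BorelSpace Tbar := ⟨rfl⟩

/-- the continuous extension of `F` to the compactification -/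
noncomputable def ext (F : W → ℝ) (x : Tbar) : ℝ := limUnder atTop fun n => F (x.1 n)

/-- the left side of the inequality (a) -/
noncomputable def pairEnergy (μ : MeasureTheory.Measure (Tbar × Tbar)) (F : W → ℝ) : ℝ := ∫ z, (ext F z.1 - ext F z.2) ^ 2 ∂μ

end Pool.Agent.H44C
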